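import Pool.Agent.H35.Z.Df
import Pool.Graph.R_seed8.Helper27.E7.Low3

/-! The lower bound: the construction of Giraud. -/

set_option autoImplicit false
open Finset

namespace Pool.Agent.H35.Z
open Pool.Agent.Helper27.E7 Pool.Agent.Helper27.E7.Low

theorem G_four (k : ℕ) : FourGraph (G k) := fun _ he => (mem_G.mp he).1

theorem G_k5 (k : ℕ) : K5Free (G k) := by
  rintro ⟨S, hS, hsub⟩
  have h := (even_G k).2 S hS
  rw [inside5 (even_G k).1 S hS] at h
  have e : ∑ x ∈ S, (if S.erase x ∈ G k then 1 else 0) = 5 := by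
    rw [← hS, card_eq_sum_ones]
    refine sum_congr rfl fun x hx => if_pos (hsub ?_)
    rw [mem_powersetCard]
    exact ⟨erase_subset _ _, by rw [card_erase_of_mem hx, hS]⟩
  rw [e] at h
  exact absurd h (by decide)

section
variable {V : Type} [Fintype V] [DecidableEq V]

/-- a triple of vertices and two edges containing it -/
def P (G : Finset (Finset V)) : Finset (Finset V × Finset V × Finset V) :=
  (((univ : Finset V).powersetCard 3) ×ˢ (G ×ˢ G)).filter fun p => p.1 ⊆ p.2.1 ∧ p.1 ⊆ p.2.2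

theorem mem_P {G : Finset (Finset V)} {p : Finset V × Finset V × Finset V} :
    p ∈ P G ↔ p.1.card = 3 ∧ p.2.1 ∈ G ∧ p.2.2 ∈ G ∧ p.1 ⊆ p.2.1 ∧ p.1 ⊆ p.2.2 := by
  unfold P
  rw [mem_filter, mem_product, mem_product, mem_powersetCard]
  constructor
  · rintro ⟨⟨⟨_, h1⟩, h2, h3⟩, h4, h5⟩
    exact ⟨h1, h2, h3, h4, h5⟩
  · rintro ⟨h1, h2, h3, h4, h5⟩
    exact ⟨⟨⟨subset_univ _, h1⟩, h2, h3⟩, h4, h5⟩

theorem P_card (G : Finset (Finset V)) : (P G).card = sq G := by
  unfold P sq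
  rw [card_filter, sum_product]
  refine sum_congr rfl fun T _ => ?_
  rw [sum_product, pow_two]
  unfold codeg
  rw [card_filter, sum_mul_sum]
  refine sum_congr rfl fun e _ => sum_congr rfl fun f _ => ?_
  by_cases h1 : T ⊆ e
  · by_cases h2 : T ⊆ f
    · rw [if_pos ⟨h1, h2⟩, if_pos h1, if_pos h2, one_mul]
    · rw [if_neg (fun h => h2 h.2), if_neg h2, mul_zero]
  · rw [if_neg (fun h => h1 h.1), if_neg h1, zero_mul]

/-- the number of these triples inside `S` -/
def cnt (G : Finset (Finset V)) (S : Finset V) : ℕ := ((P G).filter fun p => p.2.1 ∪ p.2.2 ⊆ S).card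

theorem cnt_univ (G : Finset (Finset V)) : cnt G univ = sq G := by
  unfold cnt
  rw [filter_true_of_mem fun p _ => subset_univ _, P_card]

theorem union5 {G : Finset (Finset V)} (h4 : FourGraph G) {p : Finset V × Finset V × Finset V} (hp : p ∈ P G) :
    (p.2.1 ∪ p.2.2).card ≤ 5 := by
  obtain ⟨h1, h2, h3, h5, h6⟩ := mem_P.mp hp
  have e := card_union_add_card_inter p.2.1 p.2.2
  have h7 := card_le_card (subset_inter h5 h6)
  rw [h4 _ h2, h4 _ h3] at e
  omega

theorem shrink1 (G : Finset (Finset V)) (h4 : FourGraph G) (S : Finset V) (m : ℕ) (hS : S.card = m + 1) :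
    ∃ v ∈ S, cnt G S * (m + 1 - 5) ≤ cnt G (S.erase v) * (m + 1) := by
  by_contra hc
  push Not at hc
  have hne : S.Nonempty := card_pos.mp (by omega)
  have h1 : ∑ v ∈ S, cnt G (S.erase v) * (m + 1) < ∑ v ∈ S, cnt G S * (m + 1 - 5) :=
    sum_lt_sum_of_nonempty hne hc
  rw [sum_const, hS, smul_eq_mul, ← sum_mul] at h1
  have h2 : cnt G S * (m + 1 - 5) ≤ ∑ v ∈ S, cnt G (S.erase v) := by
    have h3 : ∀ v ∈ S, cnt G (S.erase v) = ∑ p ∈ (P G).filter fun p => p.2.1 ∪ p.2.2 ⊆ S,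
        if v ∉ p.2.1 ∪ p.2.2 then 1 else 0 := by
      intro v _
      unfold cnt
      rw [← card_filter, filter_filter]
      congr 1
      refine filter_congr fun p _ => ?_
      rw [subset_erase]
    rw [sum_congr rfl h3, sum_comm]
    unfold cnt
    rw [← smul_eq_mul, ← sum_const]
    refine sum_le_sum fun p hp => ?_
    obtain ⟨hpP, hpS⟩ := mem_filter.mp hp
    rw [← card_filter]
    have h5 := union5 h4 hpP
    have h6 : S.filter (fun v => v ∉ p.2.1 ∪ p.2.2) = S \ (p.2.1 ∪ p.2.2) := by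
      ext v
      rw [mem_filter, mem_sdiff]
    rw [h6, card_sdiff_of_subset hpS, hS]
    omega
  have h3 : (m + 1) * (cnt G S * (m + 1 - 5)) ≤ (∑ v ∈ S, cnt G (S.erase v)) * (m + 1) := by
    rw [mul_comm]
    exact Nat.mul_le_mul_right _ h2
  omega

theorem shrink (G : Finset (Finset V)) (h4 : FourGraph G) (j : ℕ) : ∀ m, m + j = Fintype.card V →
    ∃ S : Finset V, S.card = m ∧ sq G * m.choose 5 ≤ cnt G S * (Fintype.card V).choose 5 := by
  induction j with
  | zero =>
    intro m hm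
    refine ⟨univ, by rw [card_univ]; omega, ?_⟩
    rw [cnt_univ, show m = Fintype.card V from by omega]
  | succ j ih =>
    intro m hm
    obtain ⟨S, hS, h⟩ := ih (m + 1) (by omega)
    obtain ⟨v, hv, hv2⟩ := shrink1 G h4 S m hS
    refine ⟨S.erase v, by rw [card_erase_of_mem hv, hS]; rfl, ?_⟩
    have e := Nat.choose_mul_succ_eq m 5
    have key : (m + 1) * (sq G * m.choose 5) ≤ (m + 1) * (cnt G (S.erase v) * (Fintype.card V).choose 5) := by
      calc (m + 1) * (sq G * m.choose 5) = sq G * (m.choose 5 * (m + 1)) := by ring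
        _ = (sq G * (m + 1).choose 5) * (m + 1 - 5) := by rw [e]; ring
        _ ≤ (cnt G S * (Fintype.card V).choose 5) * (m + 1 - 5) := Nat.mul_le_mul_right _ h
        _ = (cnt G S * (m + 1 - 5)) * (Fintype.card V).choose 5 := by ring
        _ ≤ (cnt G (S.erase v) * (m + 1)) * (Fintype.card V).choose 5 := Nat.mul_le_mul_right _ hv2
        _ = _ := by ring
    exact Nat.le_of_mul_le_mul_left key (by omega)

/-- the 4-graph induced on a set of `n` vertices, as a 4-graph on `Fin n` -/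
theorem pull (G : Finset (Finset V)) (h4 : FourGraph G) (hK : K5Free G) (S : Finset V)
    (n : ℕ) (hS : S.card = n) : ∃ H : Finset (Finset (Fin n)), (FourGraph H ∧ K5Free H) ∧
      cnt G S ≤ sq H := by
  classical
  let g : Fin n ↪ V := (S.equivFinOfCardEq hS).symm.toEmbedding.trans (Function.Embedding.subtype _)
  have hg : univ.map g = S := by
    ext v
    simp only [mem_map, mem_univ, true_and]
    constructor
    · rintro ⟨i, rfl⟩
      exact ((S.equivFinOfCardEq hS).symm i).2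
    · intro hv
      refine ⟨S.equivFinOfCardEq hS ⟨v, hv⟩, ?_⟩
      show (((S.equivFinOfCardEq hS).symm (S.equivFinOfCardEq hS ⟨v, hv⟩) : {x // x ∈ S}) : V) = v
      rw [Equiv.symm_apply_apply]
  refine ⟨univ.filter fun T => T.map g ∈ G, ⟨?_, ?_⟩, ?_⟩
  · intro T hT
    have := h4 _ (mem_filter.mp hT).2
    rwa [card_map] at this
  · rintro ⟨R, hR, hsub⟩
    refine hK ⟨R.map g, by rw [card_map, hR], fun e he => ?_⟩
    rw [powersetCard_map] at he
    obtain ⟨T, hT, rfl⟩ := mem_map.mp he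
    exact (mem_filter.mp (hsub hT)).2
  · rw [← P_card]
    unfold cnt
    refine card_le_card_of_surjOn (fun q => (q.1.map g, q.2.1.map g, q.2.2.map g)) ?_
    intro p hp
    obtain ⟨hpP, hpS⟩ := mem_filter.mp (mem_coe.mp hp)
    obtain ⟨h1, h2, h3, h5, h6⟩ := mem_P.mp hpP
    have hT : p.1 ⊆ univ.map g := by
      rw [hg]; exact h5.trans (subset_union_left.trans hpS)
    have he : p.2.1 ⊆ univ.map g := by
      rw [hg]; exact subset_union_left.trans hpS
    have hf : p.2.2 ⊆ univ.map g := by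
      rw [hg]; exact subset_union_right.trans hpS
    obtain ⟨T', -, hT'⟩ := subset_map_iff.mp hT
    obtain ⟨e', -, he'⟩ := subset_map_iff.mp he
    obtain ⟨f', -, hf'⟩ := subset_map_iff.mp hf
    refine ⟨(T', e', f'), mem_coe.mpr (mem_P.mpr ⟨?_, ?_, ?_, ?_, ?_⟩), ?_⟩
    · rw [hT', card_map] at h1
      exact h1
    · exact mem_filter.mpr ⟨mem_univ _, he' ▸ h2⟩
    · exact mem_filter.mpr ⟨mem_univ _, hf' ▸ h3⟩
    · rw [hT', he'] at h5
      exact map_subset_map.mp h5
    · rw [hT', hf'] at h6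
      exact map_subset_map.mp h6
    · show (T'.map g, e'.map g, f'.map g) = p
      rw [← hT', ← he', ← hf']

end

theorem choose5 (n : ℕ) : 120 * ((n.choose 5 : ℕ) : ℤ) = n * (n - 1) * (n - 2) * (n - 3) * (n - 4) := by
  have h := Nat.descFactorial_eq_factorial_mul_choose n 5
  have h2 : (n.descFactorial 5 : ℤ) = n * (n - 1) * (n - 2) * (n - 3) * (n - 4) := by
    rcases n with _ | _ | _ | _ | n
    · simp [Nat.descFactorial]
    · simp [Nat.descFactorial]
    · simp [Nat.descFactorial]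
    · simp [Nat.descFactorial]
    · simp only [Nat.descFactorial]
      push_cast
      ring
  rw [← h2, h]
  push_cast
  norm_num [Nat.factorial]

theorem choose4 (n : ℕ) : 24 * ((n.choose 4 : ℕ) : ℤ) = n * (n - 1) * (n - 2) * (n - 3) := by
  have h := Nat.descFactorial_eq_factorial_mul_choose n 4
  have h2 : (n.descFactorial 4 : ℤ) = n * (n - 1) * (n - 2) * (n - 3) := by
    rcases n with _ | _ | _ | n
    · simp [Nat.descFactorial]
    · simp [Nat.descFactorial]
    · simp [Nat.descFactorial]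
    · simp only [Nat.descFactorial]
      push_cast
      ring
  rw [← h2, h]
  push_cast
  norm_num [Nat.factorial]

theorem card_Vk (k : ℕ) : Fintype.card (Vk k) = 2 * 2 ^ k := by
  rw [Fintype.card_prod, Fintype.card_bool, card_W]

theorem G_big (k : ℕ) (hk : 1 ≤ k) : 11 * (Fintype.card (Vk k)).choose 4 ≤ 16 * (G k).card := by
  have h1 := choose4 (2 * 2 ^ k)
  have h2 := cardG (k := k)
  have h3 : (2 : ℤ) ≤ 2 ^ k := by
    calc (2 : ℤ) = 2 ^ 1 := by norm_num
      _ ≤ 2 ^ k := pow_le_pow_right₀ (by norm_num) hk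
  rw [card_Vk]
  push_cast at h1
  have key : 24 * (11 * (((2 * 2 ^ k).choose 4 : ℕ) : ℤ)) ≤ 24 * (16 * ((G k).card : ℤ)) := by
    have e1 : 24 * (11 * (((2 * 2 ^ k).choose 4 : ℕ) : ℤ)) = 11 * (2 * (2 : ℤ) ^ k * (2 * (2 : ℤ) ^ k - 1) * (2 * (2 : ℤ) ^ k - 2) * (2 * (2 : ℤ) ^ k - 3)) := by
      rw [← h1]; ring
    have e2 : 24 * (16 * ((G k).card : ℤ)) = 16 * (((2 : ℤ) ^ k) ^ 2 * ((2 : ℤ) ^ k - 1) * (11 * (2 : ℤ) ^ k - 16)) := by
      rw [← h2]; ring
    rw [e1, e2]
    generalize (2 : ℤ) ^ k = N at h3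
    have e3 : 16 * (N ^ 2 * (N - 1) * (11 * N - 16)) - 11 * (2 * N * (2 * N - 1) * (2 * N - 2) * (2 * N - 3)) =
        4 * (N * ((N - 1) * (24 * N - 33))) := by ring
    have e4 : 0 ≤ N * ((N - 1) * (24 * N - 33)) :=
      mul_nonneg (by linarith) (mul_nonneg (by linarith) (by linarith))
    linarith
  have := le_of_mul_le_mul_left key (by norm_num)
  exact_mod_cast this

theorem G_codeg (k : ℕ) (T : Finset (Vk k)) (hT : T.card = 3) :
    2 * codeg (G k) T = Fintype.card (Vk k) ∨ 4 * (codeg (G k) T + 2) = 3 * Fintype.card (Vk k) := by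
  have hT' : T ∈ (univ : Finset (Vk k)).powersetCard 3 := mem_powersetCard.mpr ⟨subset_univ _, hT⟩
  by_cases h : (pa T).card = 3 ∨ (pa T).card = 0
  · left
    have h1 := mem_mono (mem_filter.mpr ⟨hT', h⟩ : T ∈ mono k)
    have h2 : codeg (G k) T = 2 ^ k := h1
    rw [h2, card_Vk]
  · right
    have h1 := mem_mixed (mem_filter.mpr ⟨hT', h⟩ : T ∈ mixed k)
    have h2 : 2 * codeg (G k) T + 4 = 3 * 2 ^ k := h1
    rw [card_Vk]
    omega

theorem G_sq (k : ℕ) (hk : 1 ≤ k) : 31 * (120 * (Fintype.card (Vk k)).choose 5) ≤ 384 * sq (G k) := by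
  have h1 := choose5 (2 * 2 ^ k)
  have h2 := sumC2 (k := k)
  have h3 : (2 : ℤ) ≤ 2 ^ k := by
    calc (2 : ℤ) = 2 ^ 1 := by norm_num
      _ ≤ 2 ^ k := pow_le_pow_right₀ (by norm_num) hk
  rw [card_Vk]
  push_cast at h1
  have e0 : ((sq (G k) : ℕ) : ℤ) = ∑ T ∈ (univ : Finset (Vk k)).powersetCard 3, (Pool.Agent.Helper27.E7.codeg (G k) T : ℤ) ^ 2 := by
    unfold sq
    push_cast
    rfl
  have key : 31 * (120 * (((2 * 2 ^ k).choose 5 : ℕ) : ℤ)) ≤ 16 * (24 * ((sq (G k) : ℕ) : ℤ)) := by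
    rw [h1, e0, h2]
    generalize (2 : ℤ) ^ k = N at h3
    have e3 : 16 * (8 * N ^ 3 * (N - 1) * (N - 2) + 6 * N ^ 2 * (N - 1) * (3 * N - 4) ^ 2) -
        31 * (2 * N * (2 * N - 1) * (2 * N - 2) * (2 * N - 3) * (2 * N - 4)) =
        N * ((N - 1) * (1408 * N ^ 2 - 3176 * N + 1488)) := by ring
    have e4 : 0 ≤ N * ((N - 1) * (1408 * N ^ 2 - 3176 * N + 1488)) :=
      mul_nonneg (by linarith) (mul_nonneg (by linarith) (by nlinarith))
    linarith
  have h5 : 31 * (120 * (((2 * 2 ^ k).choose 5 : ℕ) : ℤ)) ≤ 384 * ((sq (G k) : ℕ) : ℤ) := by linarith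
  exact_mod_cast h5

/-- **the lower bound** -/
theorem lower (n : ℕ) : 31 * (120 * n.choose 5) ≤ 384 * exSq n := by
  classical
  obtain ⟨k, hk1, hk2⟩ : ∃ k, 2 ≤ k ∧ n ≤ Fintype.card (Vk k) := by
    refine ⟨n + 2, by omega, ?_⟩
    rw [card_Vk]
    have : n + 2 < 2 ^ (n + 2) := Nat.lt_two_pow_self
    omega
  obtain ⟨S, hS, h⟩ := shrink (G k) (G_four k) (Fintype.card (Vk k) - n) n (by omega)
  obtain ⟨H, hH, hc⟩ := pull (G k) (G_four k) (G_k5 k) S n hS
  have h1 : sq H ≤ exSq n := by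
    unfold exSq
    have hm : H ∈ (univ : Finset (Finset (Finset (Fin n)))).filter fun H => FourGraph H ∧ K5Free H :=
      mem_filter.mpr ⟨mem_univ _, hH⟩
    exact le_sup (f := fun H => sq H) hm
  have h2 := G_sq k (by omega)
  have hpos : 0 < (Fintype.card (Vk k)).choose 5 := by
    refine Nat.choose_pos ?_
    rw [card_Vk]
    have : 2 ^ 2 ≤ 2 ^ k := Nat.pow_le_pow_right (by norm_num) hk1
    omega
  have key : (Fintype.card (Vk k)).choose 5 * (31 * (120 * n.choose 5)) ≤ (Fintype.card (Vk k)).choose 5 * (384 * sq H) := by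
    calc (Fintype.card (Vk k)).choose 5 * (31 * (120 * n.choose 5))
        = (31 * (120 * (Fintype.card (Vk k)).choose 5)) * n.choose 5 := by ring
      _ ≤ (384 * sq (G k)) * n.choose 5 := Nat.mul_le_mul_right _ h2
      _ = 384 * (sq (G k) * n.choose 5) := by ring
      _ ≤ 384 * (cnt (G k) S * (Fintype.card (Vk k)).choose 5) := Nat.mul_le_mul_left _ h
      _ ≤ 384 * (sq H * (Fintype.card (Vk k)).choose 5) := Nat.mul_le_mul_left _ (Nat.mul_le_mul_right _ hc)
      _ = _ := by ring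
  have := Nat.le_of_mul_le_mul_left key hpos
  omega

end Pool.Agent.H35.Z
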