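import Pool.Agent.H35.Z.Tab

/-! The check of the pointwise inequality, for all the links at once. -/

set_option autoImplicit false
set_option maxRecDepth 100000

namespace Pool.Agent.H35.Z
open Pool.Agent.T2H33.K6

noncomputable section

/-- the vector with `2 ^ n` entries one -/
def one (s n : ℕ) : ℕ := @Nat.rec (fun _ => ℕ) 1 (fun n ih => d2 (Nat.mul s (Nat.pow 2 n)) ih) n
/-- sum over `k < n` -/
def sm (n : ℕ) (f : ℕ → ℕ) : ℕ := @Nat.rec (fun _ => ℕ) 0 (fun k s => Nat.add (f k) s) n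

/-- row `k` of the type `t` -/
def rw (t k : ℕ) : ℕ := get RT (Nat.add t (Nat.mul 32 k))
/-- the signs of the monomial `k` -/
def SG (k : ℕ) : ℕ := get SGT k
/-- the bound for the rows `k` -/
def K2 (k : ℕ) : ℕ := get K2T k

/-- the signed sum of the vectors `g k`; `O` is the vector with all entries one -/
def FS (O x : ℕ) (g : ℕ → ℕ) : ℕ :=
  sm 126 (fun k => cnd (Nat.beq (bt x (SG k)) 0) (g k) (Nat.sub (Nat.mul (K2 k) O) (g k)))

def O10 : ℕ := one 32 10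
def O16 : ℕ := one 32 16
def M64 : ℕ := Nat.sub (Nat.pow 2 2048) 1
/-- part `h` of a row -/
def ck (h x : ℕ) : ℕ := Nat.land (Nat.shiftRight x (Nat.mul 2048 h)) M64
/-- the rows `k` for all the types with last bit `g` -/
def gX (g he k : ℕ) : ℕ := asm 2048 15 4 (fun c => ck he (rw (Nat.add c (Nat.mul 16 g)) k))

/-- the monomials, ordered by their first six bits -/
def PM (j : ℕ) : ℕ := Nat.land (Nat.shiftRight 31734752068707513115527731802376241833573224770768289621300519108334611616092002081245847686859042690234050112852651667230327861528027076655687335797003355256607441544449300799105476074656176788372486274847217241620862616077440043345899934414842712481035679652937856 (Nat.mul 7 j)) 127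
/-- the first and the number of the monomials with given first six bits -/
def GS (L : ℕ) : ℕ := Nat.land (Nat.shiftRight 721115584734224159127675551053365722302454822700357834201429800115677544886976611104729639650407943220358314830908768618373965003703680 (Nat.mul 7 L)) 127
def GN (L : ℕ) : ℕ := Nat.land (Nat.shiftRight 413102342403715732428559329232161750727937352792628319976307371 (Nat.mul 4 L)) 15
/-- the signs of the last four bits of a monomial -/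
def HS (k : ℕ) : ℕ := Nat.land (Nat.shiftRight 25159472647493775519224174466021584298178638989825929056394630775477947478397725844694570041764195984145287161225951214496389191667477833752723297018068384077905289640337815477735170299350556414833201389671743745823345463409721394551779687289897473512906306511049470095763319101793362043987953314042617058159132639831535239510299532775728637844857379720915666870627354822315495115175840492158765727221336772445903858135135877300194551366683048608766407080223341324591785384070644539719659387415616034615870921981342692489084791566487096053453217946450050734884924112388265634525138127126396928 (Nat.mul 16 k)) 65535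
def sg (O hf : ℕ) (g : ℕ → ℕ) (k : ℕ) : ℕ := cnd (Nat.beq (bt hf (HS k)) 0) (g k) (Nat.sub (Nat.mul (K2 k) O) (g k))
def Gv (O hf : ℕ) (g : ℕ → ℕ) (L : ℕ) : ℕ := sm (GN L) (fun j => st (fun k => sg O hf g k) (PM (Nat.add (GS L) j)))
def KG (L : ℕ) : ℕ := sm (GN L) (fun j => st K2 (PM (Nat.add (GS L) j)))
def KS (i L : ℕ) : ℕ := sm (Nat.pow 2 i) (fun M => st KG (Nat.add L M))
/-- the fast transform -/
def BF (G : ℕ → ℕ) (i : ℕ) : ℕ → ℕ := @Nat.rec (fun _ => ℕ → ℕ) G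
  (fun i ih L => st (fun L' => Nat.add (Nat.add (ih L) (ih L'))
    (Nat.shiftLeft (Nat.add (ih L) (Nat.sub (Nat.mul (KS i L') (one 32 (Nat.add 10 i))) (ih L'))) (Nat.mul 32768 (Nat.pow 2 i))))
    (Nat.add L (Nat.pow 2 i))) i
/-- the values of the pair of the fifth and sixth vertices -/
def X16 (g he hf : ℕ) : ℕ := BF (fun L => Gv O10 hf (fun k => gX g he k) L) 6 0
/-- the values of the pair of the sixth and seventh vertices -/
def Yv (m : ℕ) : ℕ := Nat.add (st (fun x => st (fun t => FS O10 x (fun k => rw t k)) (Nat.div m 1024)) (Nat.mod m 1024))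
  (st (fun t => rw t 126) (Nat.div m 1024))
def XM (m : ℕ) : ℕ := st (fun g => st (fun he => st (fun hf => X16 g he hf) (Nat.mod (Nat.div m 64) 16)) (Nat.mod (Nat.div m 1024) 16)) (Nat.div m 16384)

/-- the sum of both -/
def XY (m : ℕ) : ℕ := Nat.add (XM m) (d2 1048576 (d2 524288 (d2 262144 (d2 131072 (d2 65536 (d2 32768 (Yv m)))))))

/-- the code after the exchange of the vertices 0 and 1 -/
def pc01 (x : ℕ) : ℕ := (sb 12 13 (sb 8 9 (sb 2 4 (sb 1 3 x))))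
/-- the code after the exchange of the vertices 0 and 4 -/
def pc04 (x : ℕ) : ℕ := (sb 13 14 (sb 5 8 (sb 4 7 (sb 3 6 x))))
/-- the code after the exchange of the vertices 0 and 5 -/
def pc05 (x : ℕ) : ℕ := (sb 9 14 (sb 5 12 (sb 4 11 (sb 3 10 x))))
/-- the code after the exchange of the vertices 1 and 2 -/
def pc12 (x : ℕ) : ℕ := (sb 11 12 (sb 7 8 (sb 4 5 (sb 0 1 x))))
/-- the code after the exchange of the vertices 1 and 4 -/
def pc14 (x : ℕ) : ℕ := (sb 12 14 (sb 5 9 (sb 2 7 (sb 1 6 x))))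
/-- the code after the exchange of the vertices 1 and 5 -/
def pc15 (x : ℕ) : ℕ := (sb 8 14 (sb 5 13 (sb 2 11 (sb 1 10 x))))
/-- the code after the exchange of the vertices 2 and 3 -/
def pc23 (x : ℕ) : ℕ := (sb 10 11 (sb 6 7 (sb 3 4 (sb 1 2 x))))
/-- the code after the exchange of the vertices 2 and 4 -/
def pc24 (x : ℕ) : ℕ := (sb 11 14 (sb 4 9 (sb 2 8 (sb 0 6 x))))
/-- the code after the exchange of the vertices 2 and 5 -/
def pc25 (x : ℕ) : ℕ := (sb 7 14 (sb 4 13 (sb 2 12 (sb 0 10 x))))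
/-- the code after the exchange of the vertices 3 and 4 -/
def pc34 (x : ℕ) : ℕ := (sb 10 14 (sb 3 9 (sb 1 8 (sb 0 7 x))))
/-- the code after the exchange of the vertices 3 and 5 -/
def pc35 (x : ℕ) : ℕ := (sb 6 14 (sb 3 13 (sb 1 12 (sb 0 11 x))))
/-- the code after the exchange of the vertices 4 and 5 -/
def pc45 (x : ℕ) : ℕ := (sb 9 13 (sb 8 12 (sb 7 11 (sb 6 10 x))))

/-- mask of the fields whose index has bit `j` zero -/
def MF (j : ℕ) : ℕ := Nat.mul (Nat.sub (Nat.pow 2 (Nat.mul 32 (Nat.pow 2 j))) 1) (one (Nat.mul (Nat.mul 32 (Nat.pow 2 j)) 2) (Nat.sub 15 j))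
/-- the vector with the index bit `j` fixed to `v` -/
def FX (j v x : ℕ) : ℕ := d2 (Nat.mul 32 (Nat.pow 2 j)) (Nat.land (Nat.shiftRight x (Nat.mul (Nat.mul 32 (Nat.pow 2 j)) v)) (MF j))

def FB0 (m : ℕ) : ℕ := (XY m)
def FC0 (w0 w1 w2 w3 m : ℕ) : ℕ := (FB0 m)
def FM0 (m : ℕ) : ℕ := m
def FB1 (m : ℕ) : ℕ := (swp 32 16 8 15 (swp 32 16 7 14 (swp 32 16 6 13 (XY m))))
def FC1 (w0 w1 w2 w3 m : ℕ) : ℕ := (FX 0 w1 (FX 1 w2 (FX 2 w3 (FB1 m))))
def FM1 (m : ℕ) : ℕ := (pc05 m)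
def FB2 (m : ℕ) : ℕ := (swp 32 16 9 15 (swp 32 16 7 12 (swp 32 16 6 11 (XY m))))
def FC2 (w0 w1 w2 w3 m : ℕ) : ℕ := (FX 0 w0 (FX 3 w2 (FX 4 w3 (FB2 m))))
def FM2 (m : ℕ) : ℕ := (pc15 m)
def FB3 (m : ℕ) : ℕ := (swp 32 16 9 14 (swp 32 16 8 12 (swp 32 16 6 10 (XY m))))
def FC3 (w0 w1 w2 w3 m : ℕ) : ℕ := (FX 1 w0 (FX 3 w1 (FX 5 w3 (FB3 m))))
def FM3 (m : ℕ) : ℕ := (pc25 m)
def FB4 (m : ℕ) : ℕ := (swp 32 16 5 15 (swp 32 16 4 14 (swp 32 16 2 12 (swp 32 16 9 13 (swp 32 16 8 11 (swp 32 16 7 10 (swp 32 16 3 13 (swp 32 16 1 11 (swp 32 16 0 10 (XY m))))))))))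
def FC4 (w0 w1 w2 w3 m : ℕ) : ℕ := (FX 2 w0 (FX 4 w1 (FX 5 w2 (FB4 m))))
def FM4 (m : ℕ) : ℕ := (pc45 (pc35 m))
def FB5 (m : ℕ) : ℕ := (swp 32 16 7 10 (swp 32 16 4 13 (swp 32 16 2 11 (swp 32 16 0 6 (XY m)))))
def FC5 (w0 w1 w2 w3 m : ℕ) : ℕ := (FX 8 w0 (FX 9 w1 (FX 5 w2 (FX 15 w3 (FB5 m)))))
def FM5 (m : ℕ) : ℕ := (pc35 (pc24 m))
def FB6 (m : ℕ) : ℕ := (swp 32 16 5 8 (swp 32 16 4 7 (swp 32 16 3 6 (XM m))))
def FC6 (w0 w1 w2 w3 m : ℕ) : ℕ := (FX 10 w1 (FX 11 w2 (FX 12 w3 (FB6 m))))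
def FM6 (m : ℕ) : ℕ := (pc04 m)
def FB7 (m : ℕ) : ℕ := (swp 32 16 5 9 (swp 32 16 2 7 (swp 32 16 1 6 (XM m))))
def FC7 (w0 w1 w2 w3 m : ℕ) : ℕ := (FX 10 w0 (FX 13 w2 (FX 14 w3 (FB7 m))))
def FM7 (m : ℕ) : ℕ := (pc14 m)
def FB8 (m : ℕ) : ℕ := (swp 32 16 4 9 (swp 32 16 2 8 (swp 32 16 0 6 (XM m))))
def FC8 (w0 w1 w2 w3 m : ℕ) : ℕ := (FX 11 w0 (FX 13 w1 (FX 15 w3 (FB8 m))))
def FM8 (m : ℕ) : ℕ := (pc24 m)
def FB9 (m : ℕ) : ℕ := (swp 32 16 3 9 (swp 32 16 1 8 (swp 32 16 0 7 (XM m))))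
def FC9 (w0 w1 w2 w3 m : ℕ) : ℕ := (FX 12 w0 (FX 14 w1 (FX 15 w2 (FB9 m))))
def FM9 (m : ℕ) : ℕ := (pc34 m)
def FB10 (m : ℕ) : ℕ := (swp 32 16 9 15 (swp 32 16 5 8 (swp 32 16 4 12 (swp 32 16 3 11 (XM m)))))
def FC10 (w0 w1 w2 w3 m : ℕ) : ℕ := (FX 0 w0 (FX 10 w1 (FX 6 w2 (FX 7 w3 (FB10 m)))))
def FM10 (m : ℕ) : ℕ := (pc15 (pc04 m))
def FB11 (m : ℕ) : ℕ := (swp 32 16 9 14 (swp 32 16 5 12 (swp 32 16 4 7 (swp 32 16 3 10 (XM m)))))
def FC11 (w0 w1 w2 w3 m : ℕ) : ℕ := (FX 1 w0 (FX 6 w1 (FX 11 w2 (FX 8 w3 (FB11 m)))))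
def FM11 (m : ℕ) : ℕ := (pc25 (pc04 m))
def FB12 (m : ℕ) : ℕ := (swp 32 16 9 13 (swp 32 16 5 11 (swp 32 16 4 10 (swp 32 16 3 6 (XM m)))))
def FC12 (w0 w1 w2 w3 m : ℕ) : ℕ := (FX 2 w0 (FX 7 w1 (FX 8 w2 (FX 12 w3 (FB12 m)))))
def FM12 (m : ℕ) : ℕ := (pc35 (pc04 m))
def FB13 (m : ℕ) : ℕ := (swp 32 16 8 12 (swp 32 16 5 14 (swp 32 16 2 7 (swp 32 16 1 10 (XM m)))))
def FC13 (w0 w1 w2 w3 m : ℕ) : ℕ := (FX 6 w0 (FX 3 w1 (FX 13 w2 (FX 9 w3 (FB13 m)))))
def FM13 (m : ℕ) : ℕ := (pc25 (pc14 m))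
def FB14 (m : ℕ) : ℕ := (swp 32 16 8 11 (swp 32 16 5 13 (swp 32 16 2 10 (swp 32 16 1 6 (XM m)))))
def FC14 (w0 w1 w2 w3 m : ℕ) : ℕ := (FX 7 w0 (FX 4 w1 (FX 9 w2 (FX 14 w3 (FB14 m)))))
def FM14 (m : ℕ) : ℕ := (pc35 (pc14 m))

/-- the sum of the frames for the links with the last bits `w0, w1, w2, w3` -/
def rcw (w0 w1 w2 w3 m : ℕ) : ℕ := (Nat.add (st (fun m => FC0 w0 w1 w2 w3 m) (FM0 m)) (Nat.add (st (fun m => FC1 w0 w1 w2 w3 m) (FM1 m)) (Nat.add (st (fun m => FC2 w0 w1 w2 w3 m) (FM2 m)) (Nat.add (st (fun m => FC3 w0 w1 w2 w3 m) (FM3 m)) (Nat.add (st (fun m => FC4 w0 w1 w2 w3 m) (FM4 m)) (Nat.add (st (fun m => FC5 w0 w1 w2 w3 m) (FM5 m)) (Nat.add (st (fun m => FC6 w0 w1 w2 w3 m) (FM6 m)) (Nat.add (st (fun m => FC7 w0 w1 w2 w3 m) (FM7 m)) (Nat.add (st (fun m => FC8 w0 w1 w2 w3 m) (FM8 m)) (Nat.add (st (fun m => FC9 w0 w1 w2 w3 m) (FM9 m)) (Nat.add (st (fun m => FC10 w0 w1 w2 w3 m) (FM10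 m)) (Nat.add (st (fun m => FC11 w0 w1 w2 w3 m) (FM11 m)) (Nat.add (st (fun m => FC12 w0 w1 w2 w3 m) (FM12 m)) (Nat.add (st (fun m => FC13 w0 w1 w2 w3 m) (FM13 m)) (st (fun m => FC14 w0 w1 w2 w3 m) (FM14 m))))))))))))))))

/-- the check at the structure with the code `m`, for the links with given last bits -/
def chkw (w0 w1 w2 w3 m : ℕ) : Bool := Nat.beq (Nat.land (Nat.add (rcw w0 w1 w2 w3 m)
  (Nat.mul (Nat.sub 2147483647 (Nat.sub 1902995556 (Nat.mul 10447278 (bt m GV)))) O16)) (Nat.mul 2147483648 O16)) 0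

/-- the check at the structure with the code `m` -/
def chk (m : ℕ) : Bool := al 2 (fun w3 => al 2 (fun w2 => al 2 (fun w1 => al 2 (fun w0 => chkw w0 w1 w2 w3 m))))

end

end Pool.Agent.H35.Z
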