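import Pool.Agent.H35.Z.Cf
import Pool.Agent.H35.Z.Ker

/-! Checks of the coefficients. -/

set_option autoImplicit false
set_option maxRecDepth 100000

namespace Pool.Agent.H35.Z
open Pool.Agent.T2H33.K6

noncomputable section

def tj (j : ℕ) : ℕ := get tT j
/-- coefficient with offset 2097152 -/
def co (j k l : ℕ) : ℕ := Nat.land (Nat.shiftRight (get CT (Nat.add j (Nat.mul 8 k))) (Nat.mul 32 l)) 4294967295
/-- the bits of the monomial -/
def BV (l : ℕ) : ℕ := asm 32 1023 10 (fun y => bt y (SG l))
/-- the constants of the rows -/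
def Kc (k : ℕ) : ℕ := Nat.div (K2 k) 2
/-- the monomial which consists of the variable `i` -/
def sk (i : ℕ) : ℕ := Nat.land (Nat.shiftRight 64852968215161637515 (Nat.mul 7 i)) 127

/-- the rows are given by the coefficients -/
def chkA (j : ℕ) : Bool := al 126 (fun k => Nat.beq
  (Nat.add (Nat.add (rw (tj j) k) (Nat.add (sm 126 (fun l => Nat.mul (Nat.mul 2 (co j k l)) (BV l))) (Nat.mul 264241152 O10)))
    (sm 10 (fun i => cnd (Nat.beq k (sk i)) (Nat.mul 208000 (BV (sk i))) 0)))
  (Nat.add (Nat.add (Nat.mul (Nat.add (Kc k) (sm 126 (fun l => co j k l))) O10) (Nat.mul 4194304 (sm 126 BV)))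
    (cnd (Nat.beq k 0) (Nat.mul 208000 (sm 10 (fun i => BV (sk i)))) 0)))

def chkB (j : ℕ) : Bool := al 126 (fun k => al 126 (fun l => cnd (Nat.beq (co j k l) (co j l k)) (Nat.blt (co j k l) 4194304) false))

/-- independent rows -/
def np (j i : ℕ) : Bool := Nat.beq (bt i (get NT j)) 1
/-- coefficient of a relation with offset 64 -/
def wc (j i k : ℕ) : ℕ := Nat.land (Nat.shiftRight (get WT (Nat.add j (Nat.mul 8 i))) (Nat.mul 8 k)) 255

/-- the dependent rows; the coefficients of the relations vanish at the dependent rows -/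
def chkC (j : ℕ) : Bool := al 126 (fun i => cnd (np j i) true (cnd (al 126 (fun k => cnd (np j k) true (Nat.beq (wc j i k) 64)))
  (al 126 (fun l => Nat.beq
    (Nat.add (Nat.mul (get wT j) (co j i l)) (Nat.add (Nat.mul 2097152 (sm 126 (fun k => wc j i k))) (Nat.mul 64 (sm 126 (fun k => co j k l)))))
    (Nat.add (sm 126 (fun k => Nat.mul (wc j i k) (co j k l))) (Nat.add (Nat.mul (get wT j) 2097152) 16911433728)))) false))

def vc (j k : ℕ) : ℕ := get VT (Nat.add j (Nat.mul 8 k))
/-- entry of the square root with offset 16777216 -/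
def lc (j i k : ℕ) : ℕ := Nat.land (Nat.shiftRight (vc j k) (Nat.mul 64 i)) 18446744073709551615
def VS (j : ℕ) : ℕ := sm 126 (fun k => vc j k)
/-- the products of the row `i` with all the rows -/
def VP (j i : ℕ) : ℕ := sm 126 (fun k => Nat.mul (lc j i k) (vc j k))
def l64 (x i : ℕ) : ℕ := Nat.land (Nat.shiftRight x (Nat.mul 64 i)) 18446744073709551615
def PPc (j i l : ℕ) : ℕ := Nat.add (Nat.mul (get DT j) (co j i l)) (Nat.mul 16777216 (Nat.add (l64 (VS j) i) (l64 (VS j) l)))
def NNc (j i l : ℕ) : ℕ := Nat.add (l64 (VP j i) l) (Nat.add (Nat.mul (get DT j) 2097152) 35465847065542656)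
def adg (x y : ℕ) : ℕ := Nat.add (Nat.sub x y) (Nat.sub y x)
/-- the entry in the check of the dominance -/
def dN (j i l : ℕ) : ℕ := cnd (Nat.beq i l) 0 (cnd (np j l) (adg (PPc j i l) (NNc j i l)) 0)
/-- the row `i` of the rest is dominated by its diagonal entry -/
def chkD (j i : ℕ) : Bool := cnd (np j i) (Nat.ble (Nat.add (sm 126 (fun l => dN j i l)) (NNc j i i)) (PPc j i i)) true
def chkV (j : ℕ) : Bool := al 126 (fun k => cnd (Nat.blt (vc j k) (Nat.pow 2 8192)) (al 128 (fun i => Nat.blt (lc j i k) 33554432)) false)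

theorem cA0 : chkA 0 = true := by decide +kernel
theorem cA1 : chkA 1 = true := by decide +kernel
theorem cA2 : chkA 2 = true := by decide +kernel
theorem cA3 : chkA 3 = true := by decide +kernel
theorem cA4 : chkA 4 = true := by decide +kernel
theorem cA5 : chkA 5 = true := by decide +kernel
theorem cB : al 6 (fun j => st chkB j) = true := by decide +kernel
theorem cC : al 6 (fun j => st chkC j) = true := by decide +kernel
theorem cV : al 6 (fun j => st chkV j) = true := by decide +kernel
theorem cD0 : al 126 (fun i => chkD 0 i) = true := by decide +kernel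
theorem cD1 : al 126 (fun i => chkD 1 i) = true := by decide +kernel
theorem cD2 : al 126 (fun i => chkD 2 i) = true := by decide +kernel
theorem cD3 : al 126 (fun i => chkD 3 i) = true := by decide +kernel
theorem cD4 : al 126 (fun i => chkD 4 i) = true := by decide +kernel
theorem cD5 : al 126 (fun i => chkD 5 i) = true := by decide +kernel
theorem cK : Nat.beq (sm 126 Kc) 85121410 = true := by decide +kernel
theorem cK2 : al 126 (fun k => Nat.beq (Nat.mod (K2 k) 2) 0) = true := by decide +kernel
theorem cSG0 : SG 0 = 0 := by decide +kernel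
theorem csk : al 10 (fun i => st (fun N => al 32 (fun a => al 32 (fun b => Nat.beq (bt (Nat.add (Nat.mul 32 a) b) N) (bt i (Nat.add (Nat.mul 32 a) b))))) (SG (sk i))) = true := by decide +kernel
theorem csk2 : al 10 (fun i => cnd (Nat.blt (sk i) 126) (Nat.blt 0 (sk i)) false) = true := by decide +kernel
theorem cw : al 6 (fun j => cnd (Nat.blt 0 (get wT j)) (Nat.blt 0 (get DT j)) false) = true := by decide +kernel

end

end Pool.Agent.H35.Z
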