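import Mathlib

/-! The definitions used in the statement. -/

set_option autoImplicit false
open Finset

namespace Pool.Agent.H35.Z

/-- `H` is a `4`-graph: all its edges have four elements -/
def FourGraph {V : Type} (H : Finset (Finset V)) : Prop := ∀ e ∈ H, e.card = 4

/-- no five vertices have all their `4`-element subsets in `H` -/
def K5Free {V : Type} (H : Finset (Finset V)) : Prop :=
  ¬ ∃ S : Finset V, S.card = 5 ∧ S.powersetCard 4 ⊆ H

/-- the codegree of `T`: the number of edges which contain `T` -/
def codeg {V : Type} [DecidableEq V] (H : Finset (Finset V)) (T : Finset V) : ℕ :=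
  (H.filter (fun e => T ⊆ e)).card

/-- the sum of the squares of the codegrees of the triples of vertices (the `ℓ₂`-norm of `H`) -/
def sq {V : Type} [Fintype V] [DecidableEq V] (H : Finset (Finset V)) : ℕ :=
  ∑ T ∈ (univ : Finset V).powersetCard 3, codeg H T ^ 2

open Classical in
/-- the largest sum of squares of codegrees of a `4`-graph with `n` vertices that has no `K_5^4` -/
noncomputable def exSq (n : ℕ) : ℕ :=
  ((univ : Finset (Finset (Finset (Fin n)))).filter fun H => FourGraph H ∧ K5Free H).sup fun H => sq H

open Classical in
/-- the Turán function: the largest number of edges of a `4`-graph with `n` vertices that has no `K_5^4` -/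
noncomputable def ex45 (n : ℕ) : ℕ :=
  ((univ : Finset (Finset (Finset (Fin n)))).filter fun H => FourGraph H ∧ K5Free H).sup card

end Pool.Agent.H35.Z
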