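import Pool.Agent.H35.Z.Ker

/-! Checks of the invariance of the rows. -/

set_option autoImplicit false
set_option maxRecDepth 100000

namespace Pool.Agent.H35.Z
open Pool.Agent.T2H33.K6

noncomputable section

/-- the exchange of the vertices 0 and 1 -/
def fs01 (x : ℕ) : ℕ := (sb 8 9 (sb 2 4 (sb 1 3 x)))
def ts01 (t : ℕ) : ℕ := sb 2 3 t
def rs01 (s x : ℕ) : ℕ := (swp s 10 8 9 (swp s 10 2 4 (swp s 10 1 3 x)))
def pi01 (k : ℕ) : ℕ := Nat.land (Nat.shiftRight 0x7d7771706f6e7c766d6c6b6a7b7a797875747372696864636267666561605f58453231302f5e56575544432e2d2c2b2827262a29252423225d545341424021201f1e1b1a191d1c181716155c5b5a595251504f4b4a4e4d4c494847463f3e3d3c38373b3a393635343311100f1413120e0d0c0b0a06050409080703020100 (Nat.mul 8 k)) 255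
def e01 (t : ℕ) : Bool := al 126 (fun k => Nat.beq (rs01 32 (rw t k)) (rw (ts01 t) (pi01 k)))
def g01 : Bool := al 126 (fun k => cnd (Nat.beq (rs01 1 (SG k)) (SG (pi01 k))) (cnd (Nat.beq (K2 (pi01 k)) (K2 k)) (cnd (Nat.blt (pi01 k) 126) (Nat.beq (pi01 (pi01 k)) k) false) false) false)
theorem ce01 : al 32 (fun t => st e01 t) = true := by decide +kernel
theorem cg01 : g01 = true := by decide +kernel
theorem cv01 : Nat.beq (swp 1 15 1 3 (swp 1 15 2 4 (swp 1 15 8 9 (swp 1 15 12 13 GV)))) GV = true := by decide +kernel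

/-- the exchange of the vertices 1 and 2 -/
def fs12 (x : ℕ) : ℕ := (sb 7 8 (sb 4 5 (sb 0 1 x)))
def ts12 (t : ℕ) : ℕ := sb 1 2 t
def rs12 (s x : ℕ) : ℕ := (swp s 10 7 8 (swp s 10 4 5 (swp s 10 0 1 x)))
def pi12 (k : ℕ) : ℕ := Nat.land (Nat.shiftRight 0x7d7b7c797a785e5c5d5b5a595857565554525150534e4f4d4c4b49484a474677757674737271706f6e6d696c6b6a6768666564616362605f4445433f3e3d4241403b3c3a39363538373433322e2d2c31302f2a2b292825242726232220211f141312110e0d100f0c0b1e1d1c1b18171a191615090a080706030205040100 (Nat.mul 8 k)) 255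
def e12 (t : ℕ) : Bool := al 126 (fun k => Nat.beq (rs12 32 (rw t k)) (rw (ts12 t) (pi12 k)))
def g12 : Bool := al 126 (fun k => cnd (Nat.beq (rs12 1 (SG k)) (SG (pi12 k))) (cnd (Nat.beq (K2 (pi12 k)) (K2 k)) (cnd (Nat.blt (pi12 k) 126) (Nat.beq (pi12 (pi12 k)) k) false) false) false)
theorem ce12 : al 32 (fun t => st e12 t) = true := by decide +kernel
theorem cg12 : g12 = true := by decide +kernel
theorem cv12 : Nat.beq (swp 1 15 0 1 (swp 1 15 4 5 (swp 1 15 7 8 (swp 1 15 11 12 GV)))) GV = true := by decide +kernel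

/-- the exchange of the vertices 2 and 3 -/
def fs23 (x : ℕ) : ℕ := (sb 6 7 (sb 3 4 (sb 1 2 x)))
def ts23 (t : ℕ) : ℕ := sb 0 1 t
def rs23 (s x : ℕ) : ℕ := (swp s 10 6 7 (swp s 10 3 4 (swp s 10 1 2 x)))
def pi23 (k : ℕ) : ℕ := Nat.land (Nat.shiftRight 0x7677757473727c7d7b7a79786d6c6b6a71706f6e696866676563646260615f5d5e5c5a5b594542414044433f3e3d3c3a3b393837363435335854535756555251504f4d4e4c4b4a494748463230312f21201f1e1d1c1a1b19181617152e2d2c2b2a292728262523242213141210110f0e0c0d0b0a08090705060403010200 (Nat.mul 8 k)) 255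
def e23 (t : ℕ) : Bool := al 126 (fun k => Nat.beq (rs23 32 (rw t k)) (rw (ts23 t) (pi23 k)))
def g23 : Bool := al 126 (fun k => cnd (Nat.beq (rs23 1 (SG k)) (SG (pi23 k))) (cnd (Nat.beq (K2 (pi23 k)) (K2 k)) (cnd (Nat.blt (pi23 k) 126) (Nat.beq (pi23 (pi23 k)) k) false) false) false)
theorem ce23 : al 32 (fun t => st e23 t) = true := by decide +kernel
theorem cg23 : g23 = true := by decide +kernel
theorem cv23 : Nat.beq (swp 1 15 1 2 (swp 1 15 3 4 (swp 1 15 6 7 (swp 1 15 10 11 GV)))) GV = true := by decide +kernel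

/-- the exchange of the vertices 3 and 4 -/
def fs34 (x : ℕ) : ℕ := (sb 3 9 (sb 1 8 (sb 0 7 x)))
def ts34 (t : ℕ) : ℕ := sb 0 4 t
def rs34 (s x : ℕ) : ℕ := (swp s 10 3 9 (swp s 10 1 8 (swp s 10 0 7 x)))
def pi34 (k : ℕ) : ℕ := Nat.land (Nat.shiftRight 0x7d7a797c7b787068676c66656f77716e6474636261767573726d6b6a69605f574f4e524d4c565e58554b4a5b49485d5c5a595453515047462b2a293c1e0a3b1409423f3a391d1c13120807282e272631252445444332302f2d2c23221b1106413837211a19100f05043e36352018170e0d0302403d34331f16150c0b0100 (Nat.mul 8 k)) 255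
def e34 (t : ℕ) : Bool := al 126 (fun k => Nat.beq (rs34 32 (rw t k)) (rw (ts34 t) (pi34 k)))
def g34 : Bool := al 126 (fun k => cnd (Nat.beq (rs34 1 (SG k)) (SG (pi34 k))) (cnd (Nat.beq (K2 (pi34 k)) (K2 k)) (cnd (Nat.blt (pi34 k) 126) (Nat.beq (pi34 (pi34 k)) k) false) false) false)
theorem ce34 : al 32 (fun t => st e34 t) = true := by decide +kernel
theorem cg34 : g34 = true := by decide +kernel
theorem cv34 : Nat.beq (swp 1 15 0 7 (swp 1 15 1 8 (swp 1 15 3 9 (swp 1 15 10 14 GV)))) GV = true := by decide +kernel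

theorem cSG : al 126 (fun k => Nat.blt (SG k) (Nat.pow 2 1024)) = true := by decide +kernel
theorem cGV : Nat.blt GV (Nat.pow 2 32768) = true := by decide +kernel

end

end Pool.Agent.H35.Z
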