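import Pool.Agent.H35.Z.Sum
import Pool.Agent.H35.Z.Df
import Pool.Graph.R_seed8.Helper27.E7.Low3

/-! The upper bound for `4`-graphs. -/

set_option autoImplicit false
open Finset

namespace Pool.Agent.H35.Z
open Pool.Agent.T2H33.K6

section
variable {V : Type} [DecidableEq V]

/-- indicator of a quadruple -/
def ind (H : Finset (Finset V)) (a b c d : V) : ℕ := if ({a, b, c, d} : Finset V) ∈ H then 1 else 0

theorem ind_sy (H : Finset (Finset V)) : Sy (ind H) where
  s1 := fun a b c d => by
    unfold ind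
    rw [show ({b, a, c, d} : Finset V) = {a, b, c, d} from by ext; simp; tauto]
  s2 := fun a b c d => by
    unfold ind
    rw [show ({a, c, b, d} : Finset V) = {a, b, c, d} from by ext; simp; tauto]
  s3 := fun a b c d => by
    unfold ind
    rw [show ({a, b, d, c} : Finset V) = {a, b, c, d} from by ext; simp; tauto]
  lt := fun a b c d => by
    unfold ind
    split_ifs <;> norm_num

theorem ind_one {H : Finset (Finset V)} {a b c d : V} (h : ind H a b c d = 1) :
    ({a, b, c, d} : Finset V) ∈ H := by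
  unfold ind at h
  by_contra hc
  rw [if_neg hc] at h
  exact absurd h (by norm_num)

theorem ind_zero {H : Finset (Finset V)} {a b c d : V} (h : ind H a b c d = 0) :
    ({a, b, c, d} : Finset V) ∉ H := by
  intro hc
  unfold ind at h
  rw [if_pos hc] at h
  exact absurd h (by norm_num)

theorem quad_eq {a b c d : V} (h : ({a, b, c, d} : Finset V).card = 4) :
    a ≠ b ∧ a ≠ c ∧ a ≠ d ∧ b ≠ c ∧ b ≠ d ∧ c ≠ d := by
  have key : ∀ p q r : V, ({p, q, r} : Finset V).card ≤ 3 := fun p q r => Finset.card_le_three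
  refine ⟨?_, ?_, ?_, ?_, ?_, ?_⟩
  · rintro rfl
    rw [show ({a, a, c, d} : Finset V) = {a, c, d} from by ext; simp] at h
    have := key a c d; omega
  · rintro rfl
    rw [show ({a, b, a, d} : Finset V) = {a, b, d} from by ext; simp; tauto] at h
    have := key a b d; omega
  · rintro rfl
    rw [show ({a, b, c, a} : Finset V) = {a, b, c} from by ext; simp; tauto] at h
    have := key a b c; omega
  · rintro rfl
    rw [show ({a, b, b, d} : Finset V) = {a, b, d} from by ext; simp] at h
    have := key a b d; omega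
  · rintro rfl
    rw [show ({a, b, c, b} : Finset V) = {a, b, c} from by ext; simp; tauto] at h
    have := key a b c; omega
  · rintro rfl
    rw [show ({a, b, c, c} : Finset V) = {a, b, c} from by ext; simp] at h
    have := key a b c; omega

theorem sub5 {a b c d e : V} (hab : a ≠ b) (hac : a ≠ c) (had : a ≠ d) (hae : a ≠ e) (hbc : b ≠ c) (hbd : b ≠ d)
    (hbe : b ≠ e) (hcd : c ≠ d) (hce : c ≠ e) (hde : d ≠ e) {T : Finset V} (hT : T ∈ ({a, b, c, d, e} : Finset V).powersetCard 4) :
    T = {a, b, c, d} ∨ T = {a, b, c, e} ∨ T = {a, b, d, e} ∨ T = {a, c, d, e} ∨ T = {b, c, d, e} := by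
  obtain ⟨h1, h2⟩ := mem_powersetCard.mp hT
  have h5 : ({a, b, c, d, e} : Finset V).card = 5 := by
    rw [card_insert_of_notMem, card_insert_of_notMem, card_insert_of_notMem, card_insert_of_notMem,
      card_singleton]
    · simp [hde]
    · simp [hcd, hce]
    · simp [hbc, hbd, hbe]
    · simp [hab, hac, had, hae]
  have hcard : (({a, b, c, d, e} : Finset V) \ T).card = 1 := by
    rw [card_sdiff_of_subset h1]; omega
  obtain ⟨v, hv⟩ := card_eq_one.mp hcard
  have hSeq : T = ({a, b, c, d, e} : Finset V).erase v := by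
    rw [← sdiff_singleton_eq_erase, ← hv, Finset.sdiff_sdiff_eq_self h1]
  have hvT : v ∈ ({a, b, c, d, e} : Finset V) := by
    have : v ∈ ({a, b, c, d, e} : Finset V) \ T := by rw [hv]; exact mem_singleton_self v
    exact (mem_sdiff.mp this).1
  simp only [mem_insert, mem_singleton] at hvT
  rcases hvT with rfl | rfl | rfl | rfl | rfl
  · right; right; right; right
    rw [hSeq]; ext w; simp only [mem_insert, mem_singleton, mem_erase]
    constructor
    · tauto
    · rintro (rfl | rfl | rfl | rfl)
      · exact ⟨hab.symm, by tauto⟩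
      · exact ⟨hac.symm, by tauto⟩
      · exact ⟨had.symm, by tauto⟩
      · exact ⟨hae.symm, by tauto⟩
  · right; right; right; left
    rw [hSeq]; ext w; simp only [mem_insert, mem_singleton, mem_erase]
    constructor
    · tauto
    · rintro (rfl | rfl | rfl | rfl)
      · exact ⟨hab, by tauto⟩
      · exact ⟨hbc.symm, by tauto⟩
      · exact ⟨hbd.symm, by tauto⟩
      · exact ⟨hbe.symm, by tauto⟩
  · right; right; left
    rw [hSeq]; ext w; simp only [mem_insert, mem_singleton, mem_erase]
    constructor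
    · tauto
    · rintro (rfl | rfl | rfl | rfl)
      · exact ⟨hac, by tauto⟩
      · exact ⟨hbc, by tauto⟩
      · exact ⟨hcd.symm, by tauto⟩
      · exact ⟨hce.symm, by tauto⟩
  · right; left
    rw [hSeq]; ext w; simp only [mem_insert, mem_singleton, mem_erase]
    constructor
    · tauto
    · rintro (rfl | rfl | rfl | rfl)
      · exact ⟨had, by tauto⟩
      · exact ⟨hbd, by tauto⟩
      · exact ⟨hcd, by tauto⟩
      · exact ⟨hde.symm, by tauto⟩
  · left
    rw [hSeq]; ext w; simp only [mem_insert, mem_singleton, mem_erase]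
    constructor
    · tauto
    · rintro (rfl | rfl | rfl | rfl)
      · exact ⟨hae, by tauto⟩
      · exact ⟨hbe, by tauto⟩
      · exact ⟨hce, by tauto⟩
      · exact ⟨hde, by tauto⟩

theorem ind_nk {H : Finset (Finset V)} (h4 : FourGraph H) (hK : K5Free H) : NK (ind H) := by
  rintro a b c d e ⟨h1, h2, h3, h5, h6⟩
  have k1 := ind_one h1
  have k2 := ind_one h2
  have k3 := ind_one h3
  have k5 := ind_one h5
  have k6 := ind_one h6
  obtain ⟨ab, ac, ad, bc, bd, cd'⟩ := quad_eq (h4 _ k1)
  obtain ⟨-, -, ae, -, be, ce⟩ := quad_eq (h4 _ k2)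
  obtain ⟨-, -, -, -, -, de⟩ := quad_eq (h4 _ k3)
  have hT : ({a, b, c, d, e} : Finset V).card = 5 := by
    rw [card_insert_of_notMem, card_insert_of_notMem, card_insert_of_notMem, card_insert_of_notMem,
      card_singleton]
    · simp [de]
    · simp [cd', ce]
    · simp [bc, bd, be]
    · simp [ab, ac, ad, ae]
  refine hK ⟨_, hT, fun T hT' => ?_⟩
  rcases sub5 ab ac ad ae bc bd be cd' ce de hT' with rfl | rfl | rfl | rfl | rfl
  · exact k1
  · exact k2
  · exact k3
  · exact k5
  · exact k6

end

section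
variable {V : Type} [Fintype V] [DecidableEq V]

theorem dg_ind {H : Finset (Finset V)} (h4 : FourGraph H) {a b c : V} (hT : ({a, b, c} : Finset V).card = 3) :
    dg (ind H) a b c = codeg H {a, b, c} := by
  have h : codeg H {a, b, c} = (univ.filter (fun d => insert d ({a, b, c} : Finset V) ∈ H)).card :=
    Pool.Agent.Helper27.E7.Low.codeg_eq h4 hT
  rw [h, card_filter]
  unfold dg
  refine sum_congr rfl fun x _ => ?_
  unfold ind
  rw [show (insert x ({a, b, c} : Finset V)) = {a, b, c, x} from by ext; simp; tauto]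

/-- every triple has six orderings -/
theorem orderings3 (S : Finset V) (hS : S.card = 3) :
    6 ≤ ∑ a : V, ∑ b : V, ∑ c : V, if ({a, b, c} : Finset V) = S then 1 else 0 := by
  have e := S.equivFinOfCardEq hS
  set f : Fin 3 → V := fun i => (e.symm i : V) with hf
  have finj : Function.Injective f := fun i j h => e.symm.injective (Subtype.ext h)
  have himg : ∀ s : Equiv.Perm (Fin 3), ({f (s 0), f (s 1), f (s 2)} : Finset V) = S := by
    intro s
    have h1 : ({f (s 0), f (s 1), f (s 2)} : Finset V) = univ.image (fun i => f (s i)) := by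
      ext v
      simp only [mem_insert, mem_singleton, mem_image, mem_univ, true_and]
      constructor
      · rintro (rfl | rfl | rfl)
        · exact ⟨0, rfl⟩
        · exact ⟨1, rfl⟩
        · exact ⟨2, rfl⟩
      · rintro ⟨i, rfl⟩
        fin_cases i <;> simp
    rw [h1]
    ext v
    simp only [mem_image, mem_univ, true_and]
    constructor
    · rintro ⟨i, rfl⟩
      exact (e.symm (s i)).2
    · intro hv
      refine ⟨s.symm (e ⟨v, hv⟩), ?_⟩
      simp [hf]
  have hcount : (univ.filter fun t : V × V × V => ({t.1, t.2.1, t.2.2} : Finset V) = S).card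
      = ∑ a : V, ∑ b : V, ∑ c : V, if ({a, b, c} : Finset V) = S then 1 else 0 := by
    rw [card_filter]
    simp only [Fintype.sum_prod_type]
  rw [← hcount]
  have h6 : (univ : Finset (Equiv.Perm (Fin 3))).card = 6 := by
    rw [card_univ, Fintype.card_perm]
    rfl
  rw [← h6]
  refine card_le_card_of_injOn (fun s => (f (s 0), f (s 1), f (s 2))) ?_ ?_
  · intro s _
    simp only [mem_coe, mem_filter, mem_univ, true_and]
    exact himg s
  · intro s _ t _ hst
    simp only [Prod.mk.injEq] at hst
    obtain ⟨h0, h1, h2⟩ := hst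
    ext i
    fin_cases i
    · exact congrArg Fin.val (finj h0)
    · exact congrArg Fin.val (finj h1)
    · exact congrArg Fin.val (finj h2)

theorem sq_le (H : Finset (Finset V)) (h4 : FourGraph H) : 6 * sq H ≤ D2 (ind H) := by
  unfold sq D2
  calc 6 * ∑ T ∈ (univ : Finset V).powersetCard 3, codeg H T ^ 2
      = ∑ T ∈ (univ : Finset V).powersetCard 3, 6 * codeg H T ^ 2 := mul_sum _ _ _
    _ ≤ ∑ T ∈ (univ : Finset V).powersetCard 3, (∑ a : V, ∑ b : V, ∑ c : V, if ({a, b, c} : Finset V) = T then 1 else 0) * codeg H T ^ 2 :=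
        sum_le_sum fun T hT => Nat.mul_le_mul_right _ (orderings3 T (mem_powersetCard.mp hT).2)
    _ = ∑ T ∈ (univ : Finset V).powersetCard 3, ∑ a : V, ∑ b : V, ∑ c : V, (if ({a, b, c} : Finset V) = T then codeg H T ^ 2 else 0) := by
        refine sum_congr rfl fun T _ => ?_
        simp only [sum_mul, ite_mul, one_mul, zero_mul]
    _ = ∑ a : V, ∑ b : V, ∑ c : V, ∑ T ∈ (univ : Finset V).powersetCard 3, (if ({a, b, c} : Finset V) = T then codeg H T ^ 2 else 0) := by
        rw [Finset.sum_comm]
        refine sum_congr rfl fun a _ => ?_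
        rw [Finset.sum_comm]
        refine sum_congr rfl fun b _ => ?_
        rw [Finset.sum_comm]
    _ ≤ _ := by
        refine sum_le_sum fun a _ => sum_le_sum fun b _ => sum_le_sum fun c _ => ?_
        rw [Finset.sum_ite_eq]
        split_ifs with h
        · rw [dg_ind h4 (mem_powersetCard.mp h).2]
        · exact Nat.zero_le _

/-- **the upper bound** -/
theorem upper (H : Finset (Finset V)) (h4 : FourGraph H) (hK : K5Free H) :
    384 * sq H ≤ 31 * Fintype.card V ^ 5 := by
  have h1 := main_ineq (ind_sy H) (ind_nk h4 hK)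
  have h2 := sq_le H h4
  omega

theorem choose3_le (n : ℕ) : 6 * ((n.choose 3 : ℕ) : ℤ) ≤ (n : ℤ) ^ 3 := by
  rw [Pool.Agent.Helper27.E7.Low.choose3]
  rcases Nat.eq_zero_or_pos n with h | h
  · subst h
    norm_num
  · have : (1 : ℤ) ≤ n := by exact_mod_cast h
    nlinarith

theorem sum_codeg {H : Finset (Finset V)} (h4 : FourGraph H) :
    ∑ T ∈ (univ : Finset V).powersetCard 3, (codeg H T : ℤ) = 4 * (H.card : ℤ) :=
  Pool.Agent.Helper27.E7.Low.sumC1 h4

/-- **the number of edges** -/
theorem edges (H : Finset (Finset V)) (h4 : FourGraph H) (hK : K5Free H) :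
    1920 * ((Fintype.card V : ℤ) * (H.card : ℤ)) + 48 * ∑ T ∈ (univ : Finset V).powersetCard 3,
      (2 * (codeg H T : ℤ) - Fintype.card V) * (4 * (codeg H T : ℤ) - 3 * Fintype.card V) ≤ 55 * (Fintype.card V : ℤ) ^ 5 := by
  have h1 : 384 * ∑ T ∈ (univ : Finset V).powersetCard 3, (codeg H T : ℤ) ^ 2 ≤ 31 * (Fintype.card V : ℤ) ^ 5 := by
    have := upper H h4 hK
    unfold sq at this
    exact_mod_cast this
  have h2 := sum_codeg h4
  have h3 := choose3_le (Fintype.card V)
  have e : ∑ T ∈ (univ : Finset V).powersetCard 3,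
      (2 * (codeg H T : ℤ) - Fintype.card V) * (4 * (codeg H T : ℤ) - 3 * Fintype.card V) =
      8 * ∑ T ∈ (univ : Finset V).powersetCard 3, (codeg H T : ℤ) ^ 2 -
      10 * (Fintype.card V : ℤ) * ∑ T ∈ (univ : Finset V).powersetCard 3, (codeg H T : ℤ) +
      3 * (Fintype.card V : ℤ) ^ 2 * ((Fintype.card V).choose 3 : ℕ) := by
    have c : (((Fintype.card V).choose 3 : ℕ) : ℤ) = ∑ T ∈ (univ : Finset V).powersetCard 3, (1 : ℤ) := by
      rw [sum_const, card_powersetCard, card_univ, nsmul_eq_mul, mul_one]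
    rw [c, mul_sum, mul_sum, mul_sum, ← sum_sub_distrib, ← sum_add_distrib]
    refine sum_congr rfl fun T _ => ?_
    ring
  rw [e, h2]
  have h4' : (Fintype.card V : ℤ) ^ 2 * (6 * (((Fintype.card V).choose 3 : ℕ) : ℤ)) ≤ (Fintype.card V : ℤ) ^ 2 * (Fintype.card V : ℤ) ^ 3 :=
    mul_le_mul_of_nonneg_left h3 (by positivity)
  have e5 : (Fintype.card V : ℤ) ^ 2 * (Fintype.card V : ℤ) ^ 3 = (Fintype.card V : ℤ) ^ 5 := by ring
  rw [e5] at h4'
  linarith

/-- **no triple of medium codegree** -/
theorem gap (H : Finset (Finset V)) (h4 : FourGraph H) (hK : K5Free H) (k : ℕ)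
    (hg : ∀ T : Finset V, T.card = 3 → 2 * codeg H T ≤ Fintype.card V ∨ 3 * Fintype.card V ≤ 4 * (codeg H T + k)) :
    1920 * H.card ≤ 55 * Fintype.card V ^ 4 + 16 * (k * Fintype.card V ^ 3) := by
  rcases Nat.eq_zero_or_pos (Fintype.card V) with h0 | hpos
  · have : H = ∅ := by
      rw [eq_empty_iff_forall_notMem]
      intro e he
      have h1 := h4 e he
      have h2 := card_le_univ e
      omega
    rw [this, card_empty]
    simp
  · have h1 := edges H h4 hK
    have h3 := choose3_le (Fintype.card V)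
    have h2 : ∑ T ∈ (univ : Finset V).powersetCard 3, (-(2 * ((k : ℤ) * Fintype.card V))) ≤
        ∑ T ∈ (univ : Finset V).powersetCard 3,
          (2 * (codeg H T : ℤ) - Fintype.card V) * (4 * (codeg H T : ℤ) - 3 * Fintype.card V) := by
      refine sum_le_sum fun T hT => ?_
      have hk : (0 : ℤ) ≤ k := Int.natCast_nonneg k
      have hn : (0 : ℤ) ≤ Fintype.card V := Int.natCast_nonneg _
      have hkn := mul_nonneg hk hn
      rcases hg T (mem_powersetCard.mp hT).2 with h | h
      · have h' : 2 * (codeg H T : ℤ) ≤ Fintype.card V := by exact_mod_cast h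
        have h5 : 0 ≤ (Fintype.card V - 2 * (codeg H T : ℤ)) * (3 * Fintype.card V - 4 * (codeg H T : ℤ)) :=
          mul_nonneg (by linarith) (by linarith)
        nlinarith
      · have h' : 3 * (Fintype.card V : ℤ) ≤ 4 * ((codeg H T : ℤ) + k) := by exact_mod_cast h
        rcases le_total (2 * (codeg H T : ℤ)) (Fintype.card V) with h5 | h5
        · have h6 : 0 ≤ (Fintype.card V - 2 * (codeg H T : ℤ)) * (3 * Fintype.card V - 4 * (codeg H T : ℤ)) :=
            mul_nonneg (by linarith) (by linarith)
          nlinarith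
        · rcases le_total (3 * (Fintype.card V : ℤ)) (4 * (codeg H T : ℤ)) with h7 | h7
          · have h6 : 0 ≤ (2 * (codeg H T : ℤ) - Fintype.card V) * (4 * (codeg H T : ℤ) - 3 * Fintype.card V) :=
              mul_nonneg (by linarith) (by linarith)
            linarith
          · have h6 : 0 ≤ (2 * (codeg H T : ℤ) - Fintype.card V) * (4 * k - (3 * Fintype.card V - 4 * (codeg H T : ℤ))) :=
              mul_nonneg (by linarith) (by linarith)
            have h8 : 0 ≤ (k : ℤ) * (Fintype.card V - 2 * (2 * (codeg H T : ℤ) - Fintype.card V)) :=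
              mul_nonneg hk (by linarith)
            nlinarith
    rw [sum_const, card_powersetCard, card_univ, nsmul_eq_mul] at h2
    have hp : (0 : ℤ) < Fintype.card V := by exact_mod_cast hpos
    have hkn : (0 : ℤ) ≤ (k : ℤ) * Fintype.card V := mul_nonneg (Int.natCast_nonneg k) hp.le
    have h5 := mul_le_mul_of_nonneg_left h3 hkn
    have key : (Fintype.card V : ℤ) * (1920 * (H.card : ℤ)) ≤ (Fintype.card V : ℤ) *
        (55 * (Fintype.card V : ℤ) ^ 4 + 16 * ((k : ℤ) * (Fintype.card V : ℤ) ^ 3)) := by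
      generalize (Fintype.card V : ℤ) = x at *
      generalize (((Fintype.card V).choose 3 : ℕ) : ℤ) = c at *
      have e1 : x * (55 * x ^ 4 + 16 * ((k : ℤ) * x ^ 3)) = 55 * x ^ 5 + 16 * ((k : ℤ) * x * x ^ 3) := by ring
      rw [e1]
      linarith
    have := le_of_mul_le_mul_left key hp
    exact_mod_cast this

/-- **the bound for the number of edges** -/
theorem cs (H : Finset (Finset V)) (h4 : FourGraph H) (hK : K5Free H) : 36864 * H.card ^ 2 ≤ 31 * Fintype.card V ^ 8 := by
  have h1 : 384 * ∑ T ∈ (univ : Finset V).powersetCard 3, (codeg H T : ℤ) ^ 2 ≤ 31 * (Fintype.card V : ℤ) ^ 5 := by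
    have := upper H h4 hK
    unfold sq at this
    exact_mod_cast this
  have h2 : (∑ T ∈ (univ : Finset V).powersetCard 3, (codeg H T : ℤ)) ^ 2 ≤
      (((univ : Finset V).powersetCard 3).card : ℤ) * ∑ T ∈ (univ : Finset V).powersetCard 3, (codeg H T : ℤ) ^ 2 :=
    sq_sum_le_card_mul_sum_sq
  rw [sum_codeg h4, card_powersetCard, card_univ] at h2
  have h3 := choose3_le (Fintype.card V)
  have hs : 0 ≤ ∑ T ∈ (univ : Finset V).powersetCard 3, (codeg H T : ℤ) ^ 2 := sum_nonneg fun T _ => sq_nonneg _
  have h5 := mul_le_mul_of_nonneg_right h3 hs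
  have h6 := mul_le_mul_of_nonneg_left h1 (by positivity : (0 : ℤ) ≤ (Fintype.card V : ℤ) ^ 3)
  have key : 36864 * (H.card : ℤ) ^ 2 ≤ 31 * (Fintype.card V : ℤ) ^ 8 := by
    generalize (∑ T ∈ (univ : Finset V).powersetCard 3, (codeg H T : ℤ) ^ 2) = s at *
    generalize (Fintype.card V : ℤ) = x at *
    have e1 : x ^ 3 * (31 * x ^ 5) = 31 * x ^ 8 := by ring
    rw [e1] at h6
    have e2 : (4 * (H.card : ℤ)) ^ 2 = 16 * (H.card : ℤ) ^ 2 := by ring
    rw [e2] at h2
    linarith
  exact_mod_cast key

end

end Pool.Agent.H35.Z
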