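import Pool.Agent.H35.Z.Ker
import Pool.Graph.R_pool_sql_team_seeded_707910d6.T2H33.K6.Fx

/-! Signed sums of packed vectors. -/

set_option autoImplicit false
set_option maxRecDepth 100000
open Finset

namespace Pool.Agent.H35.Z
open Pool.Agent.T2H33.K6

noncomputable section

theorem one_eq (s n : ℕ) : one s n = enc s n (fun _ => 1) := by
  induction n with
  | zero => rw [enc_zero]; rfl
  | succ n ih =>
    show d2 (s * 2 ^ n) (one s n) = _
    rw [ih, enc_rep]

theorem enc_z (s n : ℕ) : enc s n (fun _ => 0) = 0 := by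
  unfold enc
  simp

theorem sm_succ (n : ℕ) (f : ℕ → ℕ) : sm (n + 1) f = f n + sm n f := rfl

theorem sm_sum (n : ℕ) (f : ℕ → ℕ) : sm n f = ∑ r ∈ range n, f r := by
  induction n with
  | zero => rfl
  | succ n ih => rw [sm_succ, ih, sum_range_succ, add_comm]

theorem sm_congr {n : ℕ} {f g : ℕ → ℕ} (h : ∀ r < n, f r = g r) : sm n f = sm n g := by
  rw [sm_sum, sm_sum]
  exact sum_congr rfl fun r hr => h r (mem_range.mp hr)

theorem sm_enc (s N n : ℕ) (F : ℕ → ℕ → ℕ) : sm n (fun r => enc s N (F r)) = enc s N (fun t => ∑ r ∈ range n, F r t) := by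
  induction n with
  | zero =>
    simp only [sum_range_zero]
    exact (enc_z s N).symm
  | succ n ih =>
    rw [sm_succ, ih]
    refine (enc_add s N _ _).trans (enc_congr fun t _ => ?_)
    rw [sum_range_succ, add_comm]

theorem enc_sub' (s n : ℕ) (f g : ℕ → ℕ) (h : ∀ i < 2 ^ n, g i ≤ f i) :
    enc s n f - enc s n g = enc s n (fun i => f i - g i) := by
  have e : enc s n f = enc s n (fun i => f i - g i) + enc s n g := by
    rw [enc_add]
    exact enc_congr fun i hi => (Nat.sub_add_cancel (h i hi)).symm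
  rw [e, Nat.add_sub_cancel]

theorem bt_cases (k c : ℕ) : Nat.beq (bt k c) 0 = true ∧ bt k c = 0 ∨ Nat.beq (bt k c) 0 = false ∧ bt k c = 1 := by
  rcases bt01 k c with h | h <;> rw [h]
  · exact Or.inl ⟨rfl, rfl⟩
  · exact Or.inr ⟨rfl, rfl⟩

theorem FS_enc (n x : ℕ) (g : ℕ → ℕ) (G : ℕ → ℕ → ℕ) (hg : ∀ k < 126, g k = enc 32 n (G k))
    (hG : ∀ k < 126, ∀ j < 2 ^ n, G k j ≤ K2 k) :
    FS (enc 32 n (fun _ => 1)) x g = enc 32 n (fun j => FS 1 x (fun k => G k j)) := by
  have h1 : FS (enc 32 n (fun _ => 1)) x g = sm 126 (fun k => enc 32 n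
      (fun j => cnd (Nat.beq (bt x (SG k)) 0) (G k j) (Nat.sub (Nat.mul (K2 k) 1) (G k j)))) := by
    refine sm_congr fun k hk => ?_
    rcases bt_cases x (SG k) with ⟨hb, -⟩ | ⟨hb, -⟩ <;> rw [hb]
    · exact hg k hk
    · show K2 k * enc 32 n (fun _ => 1) - g k = enc 32 n (fun j => K2 k * 1 - G k j)
      rw [hg k hk, mul_comm (K2 k), enc_mulc, enc_sub' _ _ _ _ (fun i hi => by rw [one_mul]; exact hG k hk i hi)]
      exact enc_congr fun i _ => by rw [one_mul, mul_one]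
  rw [h1, sm_enc]
  refine enc_congr fun j _ => ?_
  unfold FS
  rw [sm_sum]

theorem FS_le (x : ℕ) (g : ℕ → ℕ) (hg : ∀ k < 126, g k ≤ K2 k) : FS 1 x g ≤ sm 126 K2 := by
  unfold FS
  rw [sm_sum, sm_sum]
  refine sum_le_sum fun k hk => ?_
  rcases bt_cases x (SG k) with ⟨hb, -⟩ | ⟨hb, -⟩ <;> rw [hb]
  · exact hg k (mem_range.mp hk)
  · show K2 k * 1 - g k ≤ _
    omega

theorem FS_congr (x : ℕ) {g h : ℕ → ℕ} (hg : ∀ k < 126, g k = h k) : FS 1 x g = FS 1 x h :=
  sm_congr fun k hk => by rw [hg k hk]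

/-- the bound of the sums -/
def BP : ℕ := 170242820
theorem K2_sum : sm 126 K2 = BP := by decide +kernel

/-- the rows are bounded -/
def rowc (t : ℕ) : Bool := al 126 (fun k => cnd (Nat.blt (rw t k) (Nat.pow 2 32768))
  (cnd (Nat.beq (Nat.land (rw t k) (Nat.mul 2147483648 O10)) 0)
  (Nat.beq (Nat.land (Nat.add (rw t k) (Nat.mul (Nat.sub 2147483647 (K2 k)) O10)) (Nat.mul 2147483648 O10)) 0) false) false)
theorem rowc_ok : al 32 (fun t => st rowc t) = true := by decide +kernel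
theorem K2c_ok : al 126 (fun k => Nat.blt (K2 k) 2147483648) = true := by decide +kernel

theorem cnd_and {x y : Bool} (h : cnd x y false = true) : x = true ∧ y = true := by
  cases x <;> cases y <;> first | exact ⟨rfl, rfl⟩ | exact absurd h (by decide)

theorem O10_eq : O10 = enc 32 10 (fun _ => 1) := one_eq 32 10
theorem O16_eq : O16 = enc 32 16 (fun _ => 1) := one_eq 32 16

theorem K2_lt {k : ℕ} (hk : k < 126) : K2 k < 2 ^ 31 := by
  have h := Nat.le_of_ble_eq_true (al_true K2c_ok hk)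
  exact lt_of_lt_of_eq h (by norm_num)

theorem mul_one_enc (c n : ℕ) : Nat.mul c (enc 32 n (fun _ => 1)) = enc 32 n (fun _ => c) := by
  show c * _ = _
  rw [mul_comm, enc_mulc]
  exact enc_congr fun _ _ => by rw [one_mul]

/-- a comparison of all the entries -/
theorem enc_le2 {n C : ℕ} {f : ℕ → ℕ} (hC : C < 2 ^ 31) (hf : ∀ i < 2 ^ n, f i < 2 ^ 32)
    (h0 : Nat.land (enc 32 n f) (Nat.mul 2147483648 (enc 32 n (fun _ => 1))) = 0)
    (h : Nat.land (Nat.add (enc 32 n f) (Nat.mul (Nat.sub 2147483647 C) (enc 32 n (fun _ => 1))))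
      (Nat.mul 2147483648 (enc 32 n (fun _ => 1))) = 0) {i : ℕ} (hi : i < 2 ^ n) : f i ≤ C := by
  rw [mul_one_enc] at h0 h
  rw [mul_one_enc] at h
  have k0 : ∀ i < 2 ^ n, f i ≤ 2 ^ 31 - 1 := fun i hi => by
    refine enc_le (s := 31) (n := n) (C := 2 ^ 31 - 1) (f := f) (by norm_num) ?_ ?_ hi
    · intro j hj
      have := hf j hj
      omega
    · rw [Nat.sub_self, enc_z]
      exact h0
  refine enc_le (s := 31) (n := n) (C := C) (f := f) hC ?_ h hi
  intro j hj
  have := k0 j hj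
  omega

theorem row_lt {t k : ℕ} (ht : t < 32) (hk : k < 126) : rw t k < 2 ^ (32 * 2 ^ 10) ∧ ∀ y < 2 ^ 10, fld 32 (rw t k) y ≤ K2 k := by
  have h := al_true rowc_ok ht
  rw [st_eq] at h
  obtain ⟨h1, h2⟩ := cnd_and (al_true h hk)
  obtain ⟨h2, h3⟩ := cnd_and h2
  have h1' : rw t k < 2 ^ (32 * 2 ^ 10) := by
    have := Nat.le_of_ble_eq_true h1
    exact this
  refine ⟨h1', fun y hy => ?_⟩
  have h2' := Nat.eq_of_beq_eq_true h2
  have h3' := Nat.eq_of_beq_eq_true h3
  have e : enc 32 10 (fld 32 (rw t k)) = rw t k := enc_fld (by norm_num) h1'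
  rw [O10_eq, ← e] at h2' h3'
  exact enc_le2 (K2_lt hk) (fun i _ => fld_lt 32 (rw t k) i) h2' h3' hy

end

end Pool.Agent.H35.Z
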