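import Pool.Agent.H35.Z.Ker

/-! Kernel checks, part 3. -/

set_option autoImplicit false
set_option maxRecDepth 100000
set_option linter.defProp false

namespace Pool.Agent.H35.Z

def c7 : chk 7 = true := by decide +kernel
def c116 : chk 116 = true := by decide +kernel
def c1101 : chk 1101 = true := by decide +kernel
def c1195 : chk 1195 = true := by decide +kernel
def c1457 : chk 1457 = true := by decide +kernel
def c3294 : chk 3294 = true := by decide +kernel
def c3578 : chk 3578 = true := by decide +kernel
def c7673 : chk 7673 = true := by decide +kernel

end Pool.Agent.H35.Z
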