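import Pool.Agent.H35.Z.Ker

/-! Kernel checks, part 6. -/

set_option autoImplicit false
set_option maxRecDepth 100000
set_option linter.defProp false

namespace Pool.Agent.H35.Z

def c13 : chk 13 = true := by decide +kernel
def c127 : chk 127 = true := by decide +kernel
def c1110 : chk 1110 = true := by decide +kernel
def c1198 : chk 1198 = true := by decide +kernel
def c1461 : chk 1461 = true := by decide +kernel
def c3309 : chk 3309 = true := by decide +kernel
def c3875 : chk 3875 = true := by decide +kernel
def c7917 : chk 7917 = true := by decide +kernel

end Pool.Agent.H35.Z
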