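import Pool.Agent.H35.Z.Ker

/-! Kernel checks, part 9. -/

set_option autoImplicit false
set_option maxRecDepth 100000
set_option linter.defProp false

namespace Pool.Agent.H35.Z

def c31 : chk 31 = true := by decide +kernel
def c235 : chk 235 = true := by decide +kernel
def c1140 : chk 1140 = true := by decide +kernel
def c1215 : chk 1215 = true := by decide +kernel
def c1467 : chk 1467 = true := by decide +kernel
def c3440 : chk 3440 = true := by decide +kernel
def c3887 : chk 3887 = true := by decide +kernel
def c16350 : chk 16350 = true := by decide +kernel

end Pool.Agent.H35.Z
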