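import Pool.Agent.H35.Z.Up

/-! The triples of medium codegree, and the construction. -/

set_option autoImplicit false
open Finset

namespace Pool.Agent.H35.Z

/-- the number of the triples of vertices whose codegree `d` satisfies `n / 2 < d < 3 * n / 4 - k`, where
`n` is the number of vertices -/
def mid {V : Type} [Fintype V] [DecidableEq V] (H : Finset (Finset V)) (k : ℕ) : ℕ :=
  (((univ : Finset V).powersetCard 3).filter fun T =>
    Fintype.card V < 2 * codeg H T ∧ 4 * (codeg H T + k) < 3 * Fintype.card V).card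

section
variable {V : Type} [Fintype V] [DecidableEq V]

/-- **edges and the triples of medium codegree** -/
theorem mid_bound (H : Finset (Finset V)) (h4 : FourGraph H) (hK : K5Free H) (k : ℕ) :
    1920 * H.card ≤ 55 * Fintype.card V ^ 4 + 16 * (k * Fintype.card V ^ 3) + 6 * (Fintype.card V * mid H k) := by
  rcases Nat.eq_zero_or_pos (Fintype.card V) with h0 | hpos
  · have : H = ∅ := by
      rw [eq_empty_iff_forall_notMem]
      intro e he
      have h1 := h4 e he
      have h2 := card_le_univ e
      omega
    rw [this, card_empty]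
    simp
  · have h1 := edges H h4 hK
    have h3 := choose3_le (Fintype.card V)
    have h2 : ∑ T ∈ (univ : Finset V).powersetCard 3, (-(16 * ((k : ℤ) * Fintype.card V)) - (Fintype.card V : ℤ) ^ 2 *
          (if Fintype.card V < 2 * codeg H T ∧ 4 * (codeg H T + k) < 3 * Fintype.card V then (1 : ℤ) else 0)) ≤
        ∑ T ∈ (univ : Finset V).powersetCard 3,
          8 * ((2 * (codeg H T : ℤ) - Fintype.card V) * (4 * (codeg H T : ℤ) - 3 * Fintype.card V)) := by
      refine sum_le_sum fun T hT => ?_
      have hk : (0 : ℤ) ≤ k := Int.natCast_nonneg k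
      have hn : (0 : ℤ) ≤ Fintype.card V := Int.natCast_nonneg _
      have hkn := mul_nonneg hk hn
      have hsq : 0 ≤ (8 * (codeg H T : ℤ) - 5 * Fintype.card V) ^ 2 := sq_nonneg _
      split_ifs with hm
      · nlinarith
      · by_cases h5 : Fintype.card V < 2 * codeg H T
        · have h6 : 3 * Fintype.card V ≤ 4 * (codeg H T + k) := by
            by_contra h7
            exact hm ⟨h5, by omega⟩
          have h5' : (Fintype.card V : ℤ) < 2 * (codeg H T : ℤ) := by exact_mod_cast h5
          have h6' : 3 * (Fintype.card V : ℤ) ≤ 4 * ((codeg H T : ℤ) + k) := by exact_mod_cast h6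
          rcases le_total (3 * (Fintype.card V : ℤ)) (4 * (codeg H T : ℤ)) with h7 | h7
          · have h8 : 0 ≤ (2 * (codeg H T : ℤ) - Fintype.card V) * (4 * (codeg H T : ℤ) - 3 * Fintype.card V) :=
              mul_nonneg (by linarith) (by linarith)
            linarith
          · have h8 : 0 ≤ (2 * (codeg H T : ℤ) - Fintype.card V) * (4 * k - (3 * Fintype.card V - 4 * (codeg H T : ℤ))) :=
              mul_nonneg (by linarith) (by linarith)
            have h9 : 0 ≤ (k : ℤ) * (Fintype.card V - 2 * (2 * (codeg H T : ℤ) - Fintype.card V)) :=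
              mul_nonneg hk (by linarith)
            nlinarith
        · have h5' : 2 * (codeg H T : ℤ) ≤ Fintype.card V := by exact_mod_cast (not_lt.mp h5)
          have h6 : 0 ≤ (Fintype.card V - 2 * (codeg H T : ℤ)) * (3 * Fintype.card V - 4 * (codeg H T : ℤ)) :=
            mul_nonneg (by linarith) (by linarith)
          nlinarith
    have hmid : ∑ T ∈ (univ : Finset V).powersetCard 3,
        (if Fintype.card V < 2 * codeg H T ∧ 4 * (codeg H T + k) < 3 * Fintype.card V then (1 : ℤ) else 0) = (mid H k : ℤ) := by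
      rw [sum_boole]
      rfl
    rw [sum_sub_distrib, ← mul_sum, hmid, sum_const, card_powersetCard, card_univ, nsmul_eq_mul, ← mul_sum] at h2
    have hp : (0 : ℤ) < Fintype.card V := by exact_mod_cast hpos
    have hkn : (0 : ℤ) ≤ (k : ℤ) * Fintype.card V := mul_nonneg (Int.natCast_nonneg k) hp.le
    have h5 := mul_le_mul_of_nonneg_left h3 hkn
    have key : (Fintype.card V : ℤ) * (1920 * (H.card : ℤ)) ≤ (Fintype.card V : ℤ) *
        (55 * (Fintype.card V : ℤ) ^ 4 + 16 * ((k : ℤ) * (Fintype.card V : ℤ) ^ 3) + 6 * ((Fintype.card V : ℤ) * (mid H k : ℤ))) := by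
      generalize (Fintype.card V : ℤ) = x at *
      generalize (((Fintype.card V).choose 3 : ℕ) : ℤ) = c at *
      have e1 : x * (55 * x ^ 4 + 16 * ((k : ℤ) * x ^ 3) + 6 * (x * (mid H k : ℤ))) =
          55 * x ^ 5 + 16 * ((k : ℤ) * x * x ^ 3) + 6 * (x ^ 2 * (mid H k : ℤ)) := by ring
      rw [e1]
      linarith
    have := le_of_mul_le_mul_left key hp
    exact_mod_cast this

end

/-- the construction has no triple of medium codegree (with `k = 2`) -/
theorem construction (m : ℕ) (hm : 1 ≤ m) : ∃ (V : Type) (_ : Fintype V) (_ : DecidableEq V) (H : Finset (Finset V)),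
    Fintype.card V = 2 ^ (m + 1) ∧ FourGraph H ∧ K5Free H ∧ mid H 2 = 0 ∧
    11 * (Fintype.card V).choose 4 ≤ 16 * H.card := by
  refine ⟨Pool.Agent.Helper27.E7.Low.Vk m, inferInstance, inferInstance, Pool.Agent.Helper27.E7.Low.G m, ?_, G_four m,
    G_k5 m, ?_, G_big m hm⟩
  · rw [card_Vk, pow_succ, mul_comm]
  · unfold mid
    rw [card_eq_zero, filter_eq_empty_iff]
    intro T hT
    rcases G_codeg m T (mem_powersetCard.mp hT).2 with h | h <;> omega

end Pool.Agent.H35.Z
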