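import Pool.Agent.H35.Z.Red

/-! Summation of the pointwise inequality. -/

set_option autoImplicit false
set_option maxRecDepth 100000
open Finset

namespace Pool.Agent.H35.Z
open Pool.Agent.T2H33.K6

noncomputable section

variable {V : Type} {E : V → V → V → V → ℕ}

attribute [local irreducible] FS rw K2 SG O10 enc fld GV pv gP

theorem sum_cons [Fintype V] {M : Type} [AddCommMonoid M] (n : ℕ) (F : (Fin (n + 1) → V) → M) :
    ∑ v, F v = ∑ a, ∑ w : Fin n → V, F (Fin.cons a w) := by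
  rw [← (Fin.consEquiv (fun _ => V)).sum_comp, Fintype.sum_prod_type]
  rfl

/-- sum over all the sequences of seven vertices -/
def S7 [Fintype V] (φ : V → V → V → V → V → V → V → ℕ) : ℕ :=
  ∑ v : Fin 7 → V, φ (v 0) (v 1) (v 2) (v 3) (v 4) (v 5) (v 6)

theorem S7_perm [Fintype V] (p q : Fin 7 → Fin 7) (h1 : ∀ i, q (p i) = i) (h2 : ∀ i, p (q i) = i)
    (φ : V → V → V → V → V → V → V → ℕ) :
    ∑ v : Fin 7 → V, φ (v (p 0)) (v (p 1)) (v (p 2)) (v (p 3)) (v (p 4)) (v (p 5)) (v (p 6)) = S7 φ :=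
  Fintype.sum_equiv (Equiv.arrowCongr (⟨q, p, h2, h1⟩ : Fin 7 ≃ Fin 7) (Equiv.refl V)) _ _ fun _ => rfl

theorem S7_add [Fintype V] (φ ψ : V → V → V → V → V → V → V → ℕ) :
    S7 (fun a b c d e f z => φ a b c d e f z + ψ a b c d e f z) = S7 φ + S7 ψ := sum_add_distrib

theorem S7_mono [Fintype V] {φ ψ : V → V → V → V → V → V → V → ℕ} (h : ∀ a b c d e f z, φ a b c d e f z ≤ ψ a b c d e f z) :
    S7 φ ≤ S7 ψ := sum_le_sum fun v _ => h _ _ _ _ _ _ _

theorem S7_const [Fintype V] (c : ℕ) : S7 (fun _ _ _ _ _ _ _ : V => c) = c * Fintype.card V ^ 7 := by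
  unfold S7
  rw [sum_const, card_univ, smul_eq_mul, Fintype.card_fun, Fintype.card_fin, mul_comm]

theorem S7_nest [Fintype V] (φ : V → V → V → V → V → V → V → ℕ) :
    S7 φ = ∑ a, ∑ b, ∑ c, ∑ d, ∑ e, ∑ f, ∑ z, φ a b c d e f z := by
  unfold S7
  rw [sum_cons]; refine sum_congr rfl fun a _ => ?_
  rw [sum_cons]; refine sum_congr rfl fun b _ => ?_
  rw [sum_cons]; refine sum_congr rfl fun c _ => ?_
  rw [sum_cons]; refine sum_congr rfl fun d _ => ?_
  rw [sum_cons]; refine sum_congr rfl fun e _ => ?_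
  rw [sum_cons]; refine sum_congr rfl fun f _ => ?_
  rw [sum_cons]; refine sum_congr rfl fun z _ => ?_
  rw [Fintype.sum_unique]
  rfl

theorem wt0 [Fintype V] : S7 (fun a b c d e f z => TT E a b c d e f z) = S7 (TT E) := S7_perm ![0, 1, 2, 3, 4, 5, 6] ![0, 1, 2, 3, 4, 5, 6] (by decide) (by decide) (TT E)
theorem wy0 [Fintype V] : S7 (fun a b c d e f z => YY E a b c d e f z) = S7 (YY E) := S7_perm ![0, 1, 2, 3, 4, 5, 6] ![0, 1, 2, 3, 4, 5, 6] (by decide) (by decide) (YY E)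
theorem wt1 [Fintype V] : S7 (fun a b c d e f z => TT E f b c d e a z) = S7 (TT E) := S7_perm ![5, 1, 2, 3, 4, 0, 6] ![5, 1, 2, 3, 4, 0, 6] (by decide) (by decide) (TT E)
theorem wy1 [Fintype V] : S7 (fun a b c d e f z => YY E f b c d e a z) = S7 (YY E) := S7_perm ![5, 1, 2, 3, 4, 0, 6] ![5, 1, 2, 3, 4, 0, 6] (by decide) (by decide) (YY E)
theorem wt2 [Fintype V] : S7 (fun a b c d e f z => TT E a f c d e b z) = S7 (TT E) := S7_perm ![0, 5, 2, 3, 4, 1, 6] ![0, 5, 2, 3, 4, 1, 6] (by decide) (by decide) (TT E)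
theorem wy2 [Fintype V] : S7 (fun a b c d e f z => YY E a f c d e b z) = S7 (YY E) := S7_perm ![0, 5, 2, 3, 4, 1, 6] ![0, 5, 2, 3, 4, 1, 6] (by decide) (by decide) (YY E)
theorem wt3 [Fintype V] : S7 (fun a b c d e f z => TT E a b f d e c z) = S7 (TT E) := S7_perm ![0, 1, 5, 3, 4, 2, 6] ![0, 1, 5, 3, 4, 2, 6] (by decide) (by decide) (TT E)
theorem wy3 [Fintype V] : S7 (fun a b c d e f z => YY E a b f d e c z) = S7 (YY E) := S7_perm ![0, 1, 5, 3, 4, 2, 6] ![0, 1, 5, 3, 4, 2, 6] (by decide) (by decide) (YY E)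
theorem wt4 [Fintype V] : S7 (fun a b c d e f z => TT E a b c f d e z) = S7 (TT E) := S7_perm ![0, 1, 2, 5, 3, 4, 6] ![0, 1, 2, 4, 5, 3, 6] (by decide) (by decide) (TT E)
theorem wy4 [Fintype V] : S7 (fun a b c d e f z => YY E a b c f d e z) = S7 (YY E) := S7_perm ![0, 1, 2, 5, 3, 4, 6] ![0, 1, 2, 4, 5, 3, 6] (by decide) (by decide) (YY E)
theorem wt5 [Fintype V] : S7 (fun a b c d e f z => TT E a b e f c d z) = S7 (TT E) := S7_perm ![0, 1, 4, 5, 2, 3, 6] ![0, 1, 4, 5, 2, 3, 6] (by decide) (by decide) (TT E)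
theorem wy5 [Fintype V] : S7 (fun a b c d e f z => YY E a b e f c d z) = S7 (YY E) := S7_perm ![0, 1, 4, 5, 2, 3, 6] ![0, 1, 4, 5, 2, 3, 6] (by decide) (by decide) (YY E)
theorem wt6 [Fintype V] : S7 (fun a b c d e f z => TT E e b c d a f z) = S7 (TT E) := S7_perm ![4, 1, 2, 3, 0, 5, 6] ![4, 1, 2, 3, 0, 5, 6] (by decide) (by decide) (TT E)
theorem wt7 [Fintype V] : S7 (fun a b c d e f z => TT E a e c d b f z) = S7 (TT E) := S7_perm ![0, 4, 2, 3, 1, 5, 6] ![0, 4, 2, 3, 1, 5, 6] (by decide) (by decide) (TT E)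
theorem wt8 [Fintype V] : S7 (fun a b c d e f z => TT E a b e d c f z) = S7 (TT E) := S7_perm ![0, 1, 4, 3, 2, 5, 6] ![0, 1, 4, 3, 2, 5, 6] (by decide) (by decide) (TT E)
theorem wt9 [Fintype V] : S7 (fun a b c d e f z => TT E a b c e d f z) = S7 (TT E) := S7_perm ![0, 1, 2, 4, 3, 5, 6] ![0, 1, 2, 4, 3, 5, 6] (by decide) (by decide) (TT E)
theorem wt10 [Fintype V] : S7 (fun a b c d e f z => TT E e f c d a b z) = S7 (TT E) := S7_perm ![4, 5, 2, 3, 0, 1, 6] ![4, 5, 2, 3, 0, 1, 6] (by decide) (by decide) (TT E)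
theorem wt11 [Fintype V] : S7 (fun a b c d e f z => TT E e b f d a c z) = S7 (TT E) := S7_perm ![4, 1, 5, 3, 0, 2, 6] ![4, 1, 5, 3, 0, 2, 6] (by decide) (by decide) (TT E)
theorem wt12 [Fintype V] : S7 (fun a b c d e f z => TT E e b c f a d z) = S7 (TT E) := S7_perm ![4, 1, 2, 5, 0, 3, 6] ![4, 1, 2, 5, 0, 3, 6] (by decide) (by decide) (TT E)
theorem wt13 [Fintype V] : S7 (fun a b c d e f z => TT E a e f d b c z) = S7 (TT E) := S7_perm ![0, 4, 5, 3, 1, 2, 6] ![0, 4, 5, 3, 1, 2, 6] (by decide) (by decide) (TT E)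
theorem wt14 [Fintype V] : S7 (fun a b c d e f z => TT E a e c f b d z) = S7 (TT E) := S7_perm ![0, 4, 2, 5, 1, 3, 6] ![0, 4, 2, 5, 1, 3, 6] (by decide) (by decide) (TT E)

theorem W0_sum [Fintype V] : S7 (W0 E) = 15 * S7 (TT E) + 6 * S7 (YY E) := by
  have h : S7 (W0 E) = (S7 (fun a b c d e f z => TT E a b c d e f z) + S7 (fun a b c d e f z => YY E a b c d e f z)) + ((S7 (fun a b c d e f z => TT E f b c d e a z) + S7 (fun a b c d e f z => YY E f b c d e a z)) + ((S7 (fun a b c d e f z => TT E a f c d e b z) + S7 (fun a b c d e f z => YY E a f c d e b z)) + ((S7 (fun a b c d e f z => TT E a b f d e c z) + S7 (fun a b c d e f z => YY E a b f d e c z)) + ((S7 (fun a b c d e f z => TT E a b c f d e z) + S7 (fun a b c d e f z => YY E a b c f d e z)) + ((S7 (fun a b c d e f z => TT E a b e f c d z) + S7 (fun a b c d e f z => YY E a b e f c d z)) + (S7 (fun a b c d e f z => TT E e b c d a f z) + (S7 (fun a b c d e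 f z => TT E a e c d b f z) + (S7 (fun a b c d e f z => TT E a b e d c f z) + (S7 (fun a b c d e f z => TT E a b c e d f z) + (S7 (fun a b c d e f z => TT E e f c d a b z) + (S7 (fun a b c d e f z => TT E e b f d a c z) + (S7 (fun a b c d e f z => TT E e b c f a d z) + (S7 (fun a b c d e f z => TT E a e f d b c z) + (S7 (fun a b c d e f z => TT E a e c f b d z))))))))))))))) := by
    rw [← S7_add, ← S7_add, ← S7_add, ← S7_add, ← S7_add, ← S7_add, ← S7_add, ← S7_add, ← S7_add, ← S7_add, ← S7_add, ← S7_add, ← S7_add, ← S7_add, ← S7_add, ← S7_add, ← S7_add, ← S7_add, ← S7_add, ← S7_add]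
    rfl
  rw [h, wt0, wy0, wt1, wy1, wt2, wy2, wt3, wy3, wt4, wy4, wt5, wy5, wt6, wt7, wt8, wt9, wt10, wt11, wt12, wt13, wt14]
  ring

theorem TT_sum [Fintype V] : S7 (TT E) = S7 (PV E) :=
  S7_perm ![0, 1, 2, 3, 6, 5, 4] ![0, 1, 2, 3, 6, 5, 4] (by decide) (by decide) (PV E)

/-- the sum over the structures on six vertices -/
def G7 [Fintype V] (E : V → V → V → V → ℕ) : ℕ := S7 (fun a b c d e f _ => gP (kk E a b c d e f))

theorem G7_perm [Fintype V] : S7 (fun a b c d e _ z => gP (kk E a b c d e z)) = G7 E :=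
  S7_perm ![0, 1, 2, 3, 4, 6, 5] ![0, 1, 2, 3, 4, 6, 5] (by decide) (by decide) (fun a b c d e f _ => gP (kk E a b c d e f))

theorem YY_sum [Fintype V] : S7 (YY E) = S7 (PV E) + G7 E := by
  rw [← G7_perm, ← S7_add]
  rfl

theorem tot_sum [Fintype V] : S7 (fun a b c d e f z => W0 E a b c d e f z + gP (kk E a b c d e f)) = 21 * S7 (PV E) + 7 * G7 E := by
  rw [S7_add, W0_sum, TT_sum, YY_sum]
  unfold G7
  ring

theorem tot_up [Fintype V] (hE : Sy E) (hK : NK E) : 21 * S7 (PV E) + 7 * G7 E ≤ 1902995556 * Fintype.card V ^ 7 := by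
  rw [← tot_sum, ← S7_const]
  exact S7_mono fun a b c d e f z => W0_le hE hK a b c d e f z

/-- the codegree of an ordered triple -/
def dg [Fintype V] (E : V → V → V → V → ℕ) (a b c : V) : ℕ := ∑ x, E a b c x

/-- the sum of the squares of the codegrees of the ordered triples -/
def D2 [Fintype V] (E : V → V → V → V → ℕ) : ℕ := ∑ a, ∑ b, ∑ c, dg E a b c ^ 2

/-- the sum of the squares of the codegrees of the ten triples -/
def t5 [Fintype V] (E : V → V → V → V → ℕ) (a b c d e : V) : ℕ :=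
  dg E a b e ^ 2 + dg E a c e ^ 2 + dg E a d e ^ 2 + dg E b c e ^ 2 + dg E b d e ^ 2 + dg E c d e ^ 2 +
  dg E a b c ^ 2 + dg E a b d ^ 2 + dg E a c d ^ 2 + dg E b c d ^ 2

theorem DS_t5 [Fintype V] (hE : Sy E) (a b c d e : V) :
    DS (fun x => kk E a b c d e x % 1024) = (t5 E a b c d e : ℤ) := by
  have hb : ∀ i < 10, ∀ x, bt i (kk E a b c d e x % 1024) = kb E a b c d e x i := fun i hi x => by
    have h3 : ∀ k, kb E a b c d e x k < 2 := kb_lt hE a b c d e x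
    have e1 : kk E a b c d e x % 1024 = pk 10 (kb E a b c d e x) := pk_mod (n := 10) (m := 5) fun k _ => h3 k
    rw [e1]
    exact bt_pk (fun k _ => h3 k) hi
  unfold DS
  have h1 : ∀ i ∈ range 10, (∑ x, (bt i (kk E a b c d e x % 1024) : ℤ)) ^ 2 = (∑ x, (kb E a b c d e x i : ℤ)) ^ 2 := fun i hi => by
    congr 1
    exact sum_congr rfl fun x _ => by rw [hb i (mem_range.mp hi) x]
  rw [sum_congr rfl h1]
  simp only [sum_range_succ, sum_range_zero, zero_add]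
  unfold t5 dg kb
  push_cast
  rfl

theorem D2_t5 [Fintype V] : ∑ a, ∑ b, ∑ c, ∑ d, ∑ e, t5 E a b c d e = 10 * (Fintype.card V ^ 2 * D2 E) := by
  have g1 : ∀ f : V → V → V → ℕ, ∑ a, ∑ b, ∑ c, ∑ _d : V, ∑ _e : V, f a b c = Fintype.card V ^ 2 * ∑ a, ∑ b, ∑ c, f a b c := by
    intro f
    simp only [sum_const, card_univ, smul_eq_mul, mul_sum]
    refine sum_congr rfl fun a _ => sum_congr rfl fun b _ => sum_congr rfl fun c _ => ?_
    ring
  have h1 : ∑ a, ∑ b, ∑ c, ∑ _d : V, ∑ _e : V, dg E a b c ^ 2 = Fintype.card V ^ 2 * D2 E := g1 _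
  have h2 : ∑ a, ∑ b, ∑ _c : V, ∑ d, ∑ _e : V, dg E a b d ^ 2 = Fintype.card V ^ 2 * D2 E := by
    rw [← h1]
    refine sum_congr rfl fun a _ => sum_congr rfl fun b _ => ?_
    rw [sum_comm]
  have h3 : ∑ a, ∑ b, ∑ _c : V, ∑ _d : V, ∑ e, dg E a b e ^ 2 = Fintype.card V ^ 2 * D2 E := by
    rw [← h2]
    refine sum_congr rfl fun a _ => sum_congr rfl fun b _ => sum_congr rfl fun c _ => ?_
    rw [sum_comm]
  have h4 : ∑ a, ∑ _b : V, ∑ c, ∑ d, ∑ _e : V, dg E a c d ^ 2 = Fintype.card V ^ 2 * D2 E := by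
    rw [← h2]
    refine sum_congr rfl fun a _ => ?_
    rw [sum_comm]
  have h5 : ∑ a, ∑ _b : V, ∑ c, ∑ _d : V, ∑ e, dg E a c e ^ 2 = Fintype.card V ^ 2 * D2 E := by
    rw [← h3]
    refine sum_congr rfl fun a _ => ?_
    rw [sum_comm]
  have h6 : ∑ a, ∑ _b : V, ∑ _c : V, ∑ d, ∑ e, dg E a d e ^ 2 = Fintype.card V ^ 2 * D2 E := by
    rw [← h5]
    refine sum_congr rfl fun a _ => sum_congr rfl fun b _ => ?_
    rw [sum_comm]
  have h7 : ∑ _a : V, ∑ b, ∑ c, ∑ d, ∑ _e : V, dg E b c d ^ 2 = Fintype.card V ^ 2 * D2 E := by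
    rw [← h4, sum_comm]
  have h8 : ∑ _a : V, ∑ b, ∑ c, ∑ _d : V, ∑ e, dg E b c e ^ 2 = Fintype.card V ^ 2 * D2 E := by
    rw [← h5, sum_comm]
  have h9 : ∑ _a : V, ∑ b, ∑ _c : V, ∑ d, ∑ e, dg E b d e ^ 2 = Fintype.card V ^ 2 * D2 E := by
    rw [← h6, sum_comm]
  have h10 : ∑ _a : V, ∑ _b : V, ∑ c, ∑ d, ∑ e, dg E c d e ^ 2 = Fintype.card V ^ 2 * D2 E := by
    rw [← h9]
    refine sum_congr rfl fun a _ => ?_
    rw [sum_comm]
  unfold t5
  simp only [sum_add_distrib]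
  rw [h1, h2, h3, h4, h5, h6, h7, h8, h9, h10]
  ring

theorem PV_low1 [Fintype V] (hE : Sy E) (a b c d e : V) :
    (85121410 : ℤ) * (Fintype.card V : ℤ) ^ 2 + 416000 * (t5 E a b c d e : ℤ) ≤ ∑ x, ∑ y, (PV E a b c d e x y : ℤ) := by
  have ht : pk 5 (tyb E a b c d e) < 32 := by
    rw [← kk_ty hE a b c d e a]
    exact Nat.div_lt_of_lt_mul (kk_lt hE a b c d e a)
  have h := (Pr_all _ ht).2 V (fun x => kk E a b c d e x % 1024) (fun x => Nat.mod_lt _ (by norm_num))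
  rw [DS_t5 hE] at h
  refine le_trans h (le_of_eq ?_)
  refine sum_congr rfl fun x _ => sum_congr rfl fun y _ => ?_
  show _ = ((pv (kk E a b c d e x) (kk E a b c d e y) : ℕ) : ℤ)
  rw [pv_qq, kk_ty hE a b c d e x]

theorem PV_low [Fintype V] (hE : Sy E) :
    85121410 * (Fintype.card V : ℤ) ^ 7 + 4160000 * ((Fintype.card V : ℤ) ^ 2 * D2 E) ≤ (S7 (PV E) : ℤ) := by
  rw [S7_nest]
  push_cast
  calc 85121410 * (Fintype.card V : ℤ) ^ 7 + 4160000 * ((Fintype.card V : ℤ) ^ 2 * D2 E)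
      = ∑ a, ∑ b, ∑ c, ∑ d, ∑ e, ((85121410 : ℤ) * (Fintype.card V : ℤ) ^ 2 + 416000 * (t5 E a b c d e : ℤ)) := by
        have h : (∑ a, ∑ b, ∑ c, ∑ d, ∑ e, (t5 E a b c d e : ℤ)) = 10 * ((Fintype.card V : ℤ) ^ 2 * D2 E) := by
          exact_mod_cast D2_t5 (E := E)
        simp only [sum_add_distrib, sum_const, card_univ, nsmul_eq_mul, ← mul_sum]
        rw [h]
        ring
    _ ≤ _ := sum_le_sum fun a _ => sum_le_sum fun b _ => sum_le_sum fun c _ => sum_le_sum fun d _ =>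
        sum_le_sum fun e _ => PV_low1 hE a b c d e

theorem G7_eq [Fintype V] (hE : Sy E) (hK : NK E) : G7 E = 10447278 * Fintype.card V ^ 7 := by
  rw [← S7_const]
  exact sum_congr rfl fun v _ => gP_good hE hK

/-- **the main inequality** -/
theorem main_ineq [Fintype V] (hE : Sy E) (hK : NK E) : 64 * D2 E ≤ 31 * Fintype.card V ^ 5 := by
  have h1 : 21 * (S7 (PV E) : ℤ) + 7 * (G7 E : ℤ) ≤ 1902995556 * (Fintype.card V : ℤ) ^ 7 := by exact_mod_cast tot_up hE hK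
  have h2 : (G7 E : ℤ) = 10447278 * (Fintype.card V : ℤ) ^ 7 := by exact_mod_cast G7_eq hE hK
  have h3 := PV_low hE
  rw [h2] at h1
  rcases Nat.eq_zero_or_pos (Fintype.card V) with h0 | hpos
  · have hem : IsEmpty V := Fintype.card_eq_zero_iff.mp h0
    unfold D2
    rw [Fintype.sum_empty]
    exact Nat.zero_le _
  · have hp : (0 : ℤ) < (Fintype.card V : ℤ) ^ 2 := by positivity
    have key : (Fintype.card V : ℤ) ^ 2 * (64 * D2 E) ≤ (Fintype.card V : ℤ) ^ 2 * (31 * (Fintype.card V : ℤ) ^ 5) := by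
      generalize (Fintype.card V : ℤ) = x at *
      generalize (D2 E : ℤ) = y at *
      have e1 : x ^ 2 * (31 * x ^ 5) = 31 * x ^ 7 := by ring
      have e2 : x ^ 2 * (64 * y) = 64 * (x ^ 2 * y) := by ring
      rw [e1, e2]
      linarith
    have := le_of_mul_le_mul_left key hp
    exact_mod_cast this

end

end Pool.Agent.H35.Z
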