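import Pool.Agent.H35.Z.Sym1

/-! The scalar products of the flags in terms of the coefficients; positivity. -/

set_option autoImplicit false
set_option maxRecDepth 100000
set_option exponentiation.threshold 40000
open Finset

namespace Pool.Agent.H35.Z
open Pool.Agent.T2H33.K6

noncomputable section

theorem tj_lt {j : ℕ} (hj : j < 6) : tj j < 32 := by interval_cases j <;> decide
theorem SG0 : SG 0 = 0 := cSG0
theorem K2_even {k : ℕ} (hk : k < 126) : K2 k % 2 = 0 := Nat.eq_of_beq_eq_true (al_true cK2 hk)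
theorem Kc_eq (k : ℕ) : Kc k = K2 k / 2 := rfl
theorem cA_all {j : ℕ} (hj : j < 6) : chkA j = true := by
  interval_cases j
  · exact cA0
  · exact cA1
  · exact cA2
  · exact cA3
  · exact cA4
  · exact cA5
theorem cD_all {j : ℕ} (hj : j < 6) : al 126 (fun i => chkD j i) = true := by
  interval_cases j
  · exact cD0
  · exact cD1
  · exact cD2
  · exact cD3
  · exact cD4
  · exact cD5

attribute [local irreducible] FS rw K2 SG O10 enc fld GV co np wc vc lc tj sk Kc

theorem sk_lt {i : ℕ} (hi : i < 10) : sk i < 126 := by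
  obtain ⟨h1, -⟩ := cnd_and (al_true csk2 hi)
  exact Nat.le_of_ble_eq_true h1

/-- the monomials which consist of one variable -/
theorem sk_bt {i x : ℕ} (hi : i < 10) (hx : x < 2 ^ 10) : bt x (SG (sk i)) = bt i x := by
  have h := al_true csk hi
  rw [st_eq] at h
  have h1 : x / 32 < 32 := Nat.div_lt_of_lt_mul (lt_of_lt_of_eq hx (by norm_num))
  have h2 : x % 32 < 32 := Nat.mod_lt _ (by norm_num)
  have h3 := Nat.eq_of_beq_eq_true (al_true (al_true h h1) h2)
  have e : Nat.add (Nat.mul 32 (x / 32)) (x % 32) = x := Nat.div_add_mod x 32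
  rw [e] at h3
  exact h3

/-- the sign of a flag -/
def eps (k x : ℕ) : ℤ := 1 - 2 * (bt x (SG k) : ℤ)
/-- the coefficient -/
def cZ (j k l : ℕ) : ℤ := (co j k l : ℤ) - 2097152
/-- the term of the squares of the codegrees -/
def gk (k y : ℕ) : ℤ := (if k = 0 then 208000 * ∑ i ∈ range 10, (bt y (SG (sk i)) : ℤ) else 0) -
  ∑ i ∈ range 10, (if k = sk i then 208000 * (bt y (SG (sk i)) : ℤ) else 0)

theorem bt1023' : ∀ k < 10, bt k 1023 ≠ 0 := by decide

theorem BV_eq (l : ℕ) : BV l = enc 32 10 (fun y => bt y (SG l)) := by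
  unfold BV
  exact asm_eq _ _ _ _ fun k hk h0 => absurd h0 (bt1023' k hk)

theorem co_sp {j k l : ℕ} (hj : j < 6) (hk : k < 126) (hl : l < 126) : co j k l = co j l k ∧ co j k l < 4194304 := by
  have h := al_true cB hj
  rw [st_eq] at h
  obtain ⟨h1, h2⟩ := cnd_and (al_true (al_true h hk) hl)
  exact ⟨Nat.eq_of_beq_eq_true h1, Nat.le_of_ble_eq_true h2⟩

theorem Kc_sum : ∑ k ∈ range 126, Kc k = 85121410 := by
  have h := Nat.eq_of_beq_eq_true cK
  rw [sm_sum] at h
  exact h

theorem Kc_le {k : ℕ} (hk : k < 126) : Kc k ≤ 85121410 := by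
  have h := Kc_sum
  have h2 := single_le_sum (f := fun k => Kc k) (fun i _ => Nat.zero_le _) (mem_range.mpr hk)
  have h3 : Kc k ≤ ∑ x ∈ range 126, Kc x := h2
  omega

theorem beq_ff {a b : ℕ} (h : a ≠ b) : Nat.beq a b = false := by
  rw [← Bool.not_eq_true]; exact fun hh => h (Nat.eq_of_beq_eq_true hh)

theorem gA (k : ℕ) : sm 10 (fun i => cnd (Nat.beq k (sk i)) (Nat.mul 208000 (BV (sk i))) 0) =
    enc 32 10 (fun y => ∑ i ∈ range 10, (if k = sk i then 208000 * bt y (SG (sk i)) else 0)) := by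
  refine (sm_congr (g := fun i => enc 32 10 (fun y => if k = sk i then 208000 * bt y (SG (sk i)) else 0)) fun i _ => ?_).trans
    (sm_enc 32 10 10 (fun i y => if k = sk i then 208000 * bt y (SG (sk i)) else 0))
  by_cases h : k = sk i
  · have hb : Nat.beq k (sk i) = true := by rw [← h]; exact Nat.beq_refl k
    rw [hb]
    show 208000 * BV (sk i) = _
    rw [BV_eq, mul_comm, enc_mulc]
    exact enc_congr fun y _ => by rw [if_pos h, mul_comm]
  · rw [beq_ff h]
    exact (enc_z 32 10).symm.trans (enc_congr fun y _ => by rw [if_neg h])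

theorem gB (k : ℕ) : cnd (Nat.beq k 0) (Nat.mul 208000 (sm 10 (fun i => BV (sk i)))) 0 =
    enc 32 10 (fun y => if k = 0 then 208000 * ∑ i ∈ range 10, bt y (SG (sk i)) else 0) := by
  have e2 : sm 10 (fun i => BV (sk i)) = enc 32 10 (fun y => ∑ i ∈ range 10, bt y (SG (sk i))) :=
    (sm_congr (g := fun i => enc 32 10 (fun y => bt y (SG (sk i)))) fun i _ => BV_eq (sk i)).trans
      (sm_enc 32 10 10 (fun i y => bt y (SG (sk i))))
  by_cases h : k = 0
  · have hb : Nat.beq k 0 = true := by rw [h]; rfl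
    rw [hb, e2]
    show 208000 * _ = _
    rw [mul_comm, enc_mulc]
    exact enc_congr fun y _ => by rw [if_pos h, mul_comm]
  · rw [beq_ff h]
    exact (enc_z 32 10).symm.trans (enc_congr fun y _ => by rw [if_neg h])

theorem rowA {j k y : ℕ} (hj : j < 6) (hk : k < 126) (hy : y < 2 ^ 10) :
    (fld 32 (rw (tj j) k) y + ((∑ l ∈ range 126, 2 * co j k l * bt y (SG l)) + 264241152)) +
      (∑ i ∈ range 10, (if k = sk i then 208000 * bt y (SG (sk i)) else 0)) =
      ((Kc k + ∑ l ∈ range 126, co j k l) + (∑ l ∈ range 126, bt y (SG l)) * 4194304) +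
      (if k = 0 then 208000 * ∑ i ∈ range 10, bt y (SG (sk i)) else 0) := by
  have hA : Nat.add (Nat.add (rw (tj j) k) (Nat.add (sm 126 (fun l => Nat.mul (Nat.mul 2 (co j k l)) (BV l))) (Nat.mul 264241152 O10)))
      (sm 10 (fun i => cnd (Nat.beq k (sk i)) (Nat.mul 208000 (BV (sk i))) 0)) =
      Nat.add (Nat.add (Nat.mul (Nat.add (Kc k) (sm 126 (fun l => co j k l))) O10) (Nat.mul 4194304 (sm 126 BV)))
      (cnd (Nat.beq k 0) (Nat.mul 208000 (sm 10 (fun i => BV (sk i)))) 0) :=
    Nat.eq_of_beq_eq_true (al_true (cA_all hj) hk)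
  have e1 : sm 126 (fun l => Nat.mul (Nat.mul 2 (co j k l)) (BV l)) =
      enc 32 10 (fun y => ∑ l ∈ range 126, 2 * co j k l * bt y (SG l)) := by
    refine (sm_congr (g := fun l => enc 32 10 (fun y => 2 * co j k l * bt y (SG l))) fun l _ => ?_).trans
      (sm_enc 32 10 126 (fun l y => 2 * co j k l * bt y (SG l)))
    rw [BV_eq]
    show 2 * co j k l * enc 32 10 _ = _
    rw [mul_comm, enc_mulc]
    exact enc_congr fun i _ => mul_comm _ _
  have e2 : sm 126 BV = enc 32 10 (fun y => ∑ l ∈ range 126, bt y (SG l)) :=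
    (sm_congr (g := fun l => enc 32 10 (fun y => bt y (SG l))) fun l _ => BV_eq l).trans
      (sm_enc 32 10 126 (fun l y => bt y (SG l)))
  have e3 : enc 32 10 (fld 32 (rw (tj j) k)) = rw (tj j) k := enc_fld (by norm_num) (row_lt (tj_lt hj) hk).1
  have e4 : Nat.mul 4194304 (enc 32 10 (fun y => ∑ l ∈ range 126, bt y (SG l))) =
      enc 32 10 (fun y => (∑ l ∈ range 126, bt y (SG l)) * 4194304) := by
    show 4194304 * _ = _
    rw [mul_comm, enc_mulc]
  rw [gA, gB, e1, e2, O10_eq, mul_one_enc, mul_one_enc, e4, sm_sum, ← e3] at hA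
  have hA' : enc 32 10 (fun y => (fld 32 (rw (tj j) k) y + ((∑ l ∈ range 126, 2 * co j k l * bt y (SG l)) + 264241152)) +
      (∑ i ∈ range 10, (if k = sk i then 208000 * bt y (SG (sk i)) else 0))) =
      enc 32 10 (fun y => ((Kc k + ∑ l ∈ range 126, co j k l) + (∑ l ∈ range 126, bt y (SG l)) * 4194304) +
      (if k = 0 then 208000 * ∑ i ∈ range 10, bt y (SG (sk i)) else 0)) := by
    rw [← enc_add, ← enc_add, ← enc_add, ← enc_add, ← enc_add]
    exact hA
  have s1 : ∀ y, ∑ l ∈ range 126, 2 * co j k l * bt y (SG l) ≤ 1056964608 := fun y => by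
    calc _ ≤ ∑ l ∈ range 126, 8388608 := sum_le_sum fun l hl => by
          have h1 := (co_sp hj hk (mem_range.mp hl)).2
          have h2 := bt_lt_two' y (SG l)
          calc 2 * co j k l * bt y (SG l) ≤ 2 * co j k l * 1 := Nat.mul_le_mul_left _ (by omega)
            _ ≤ _ := by omega
      _ = _ := by rw [sum_const, card_range]; norm_num
  have s2 : ∑ l ∈ range 126, co j k l ≤ 528482304 := by
    calc _ ≤ ∑ l ∈ range 126, 4194304 := sum_le_sum fun l hl => le_of_lt (co_sp hj hk (mem_range.mp hl)).2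
      _ = _ := by rw [sum_const, card_range]; norm_num
  have s3 : ∀ y, ∑ l ∈ range 126, bt y (SG l) ≤ 126 := fun y => by
    calc _ ≤ ∑ l ∈ range 126, 1 := sum_le_sum fun l _ => by have := bt_lt_two' y (SG l); omega
      _ = _ := by rw [sum_const, card_range]; norm_num
  have s4 : ∀ y, ∑ i ∈ range 10, (if k = sk i then 208000 * bt y (SG (sk i)) else 0) ≤ 2080000 := fun y => by
    calc _ ≤ ∑ i ∈ range 10, 208000 := sum_le_sum fun i _ => by
          have := bt_lt_two' y (SG (sk i))
          split_ifs <;> omega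
      _ = _ := by rw [sum_const, card_range]; norm_num
  have s5 : ∀ y, (if k = 0 then 208000 * ∑ i ∈ range 10, bt y (SG (sk i)) else 0) ≤ 2080000 := fun y => by
    have : ∑ i ∈ range 10, bt y (SG (sk i)) ≤ 10 := by
      calc _ ≤ ∑ i ∈ range 10, 1 := sum_le_sum fun i _ => by have := bt_lt_two' y (SG (sk i)); omega
        _ = _ := by rw [sum_const, card_range]; norm_num
    split_ifs <;> omega
  refine enc_inj (s := 32) (n := 10) (by norm_num) ?_ ?_ hA' hy
  · intro i hi
    have h1 := (row_lt (tj_lt hj) hk).2 i hi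
    have h2 := K2_lt hk
    have h3 := s1 i
    have h4 := s4 i
    show _ < _
    norm_num at h2 ⊢
    omega
  · intro i hi
    have h1 := Kc_le hk
    have h3 := s3 i
    have h4 := s5 i
    show _ < _
    norm_num at h4 ⊢
    omega

theorem rowZ {j k y : ℕ} (hj : j < 6) (hk : k < 126) (hy : y < 2 ^ 10) :
    (fld 32 (rw (tj j) k) y : ℤ) = Kc k + ∑ l ∈ range 126, cZ j k l * eps l y + gk k y := by
  have h := rowA hj hk hy
  have h' : ((fld 32 (rw (tj j) k) y : ℤ) + ((∑ l ∈ range 126, 2 * (co j k l : ℤ) * (bt y (SG l) : ℤ)) + 264241152)) +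
      (∑ i ∈ range 10, (if k = sk i then 208000 * (bt y (SG (sk i)) : ℤ) else 0)) =
      (((Kc k : ℤ) + ∑ l ∈ range 126, (co j k l : ℤ)) + (∑ l ∈ range 126, (bt y (SG l) : ℤ)) * 4194304) +
      (if k = 0 then 208000 * ∑ i ∈ range 10, (bt y (SG (sk i)) : ℤ) else 0) := by exact_mod_cast h
  have e : ∑ l ∈ range 126, cZ j k l * eps l y = (∑ l ∈ range 126, (co j k l : ℤ)) -
      (∑ l ∈ range 126, 2 * (co j k l : ℤ) * (bt y (SG l) : ℤ)) - 264241152 + (∑ l ∈ range 126, (bt y (SG l) : ℤ)) * 4194304 := by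
    rw [sum_mul]
    have c : (264241152 : ℤ) = ∑ l ∈ range 126, (2097152 : ℤ) := by rw [sum_const, card_range]; norm_num
    rw [c, ← sum_sub_distrib, ← sum_sub_distrib, ← sum_add_distrib]
    refine sum_congr rfl fun l _ => ?_
    unfold cZ eps
    ring
  rw [e]
  unfold gk
  linarith

theorem eps0 (x : ℕ) : eps 0 x = 1 := by
  unfold eps
  rw [SG0, bt_eq, Nat.zero_div]
  norm_num

theorem gsum (x y : ℕ) : ∑ k ∈ range 126, eps k x * gk k y =
    416000 * ∑ i ∈ range 10, (bt x (SG (sk i)) : ℤ) * (bt y (SG (sk i)) : ℤ) := by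
  have h1 : ∑ k ∈ range 126, eps k x * (if k = 0 then 208000 * ∑ i ∈ range 10, (bt y (SG (sk i)) : ℤ) else 0) =
      208000 * ∑ i ∈ range 10, (bt y (SG (sk i)) : ℤ) := by
    rw [sum_eq_single 0]
    · rw [if_pos rfl, eps0, one_mul]
    · intro k _ hk
      rw [if_neg hk, mul_zero]
    · intro h
      exact absurd (mem_range.mpr (by norm_num)) h
  have h2 : ∑ k ∈ range 126, eps k x * ∑ i ∈ range 10, (if k = sk i then 208000 * (bt y (SG (sk i)) : ℤ) else 0) =
      ∑ i ∈ range 10, eps (sk i) x * (208000 * (bt y (SG (sk i)) : ℤ)) := by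
    calc _ = ∑ k ∈ range 126, ∑ i ∈ range 10, eps k x * (if k = sk i then 208000 * (bt y (SG (sk i)) : ℤ) else 0) :=
          sum_congr rfl fun k _ => mul_sum _ _ _
      _ = ∑ i ∈ range 10, ∑ k ∈ range 126, eps k x * (if k = sk i then 208000 * (bt y (SG (sk i)) : ℤ) else 0) := sum_comm
      _ = _ := by
        refine sum_congr rfl fun i hi => ?_
        rw [sum_eq_single (sk i)]
        · rw [if_pos rfl]
        · intro k _ hk
          rw [if_neg hk, mul_zero]
        · intro h
          exact absurd (mem_range.mpr (sk_lt (mem_range.mp hi))) h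
  unfold gk
  simp only [mul_sub, sum_sub_distrib]
  rw [h1, h2, mul_sum, mul_sum, ← sum_sub_distrib]
  refine sum_congr rfl fun i _ => ?_
  unfold eps
  ring

theorem qqZ {j x y : ℕ} (hj : j < 6) (hy : y < 2 ^ 10) :
    (qq (tj j) x y : ℤ) = 85121410 + ∑ k ∈ range 126, ∑ l ∈ range 126, cZ j k l * (eps k x * eps l y) +
      416000 * ∑ i ∈ range 10, (bt x (SG (sk i)) : ℤ) * (bt y (SG (sk i)) : ℤ) := by
  have h0 : (85121410 : ℤ) = ∑ k ∈ range 126, (Kc k : ℤ) := by
    have := Kc_sum
    exact_mod_cast this.symm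
  rw [h0, ← gsum x y, ← sum_add_distrib, ← sum_add_distrib]
  unfold qq FS
  rw [sm_sum]
  push_cast
  refine sum_congr rfl fun k hk => ?_
  have hk' := mem_range.mp hk
  have hr := rowZ hj hk' hy
  have hle := (row_lt (tj_lt hj) hk').2 y hy
  have e : ∑ l ∈ range 126, cZ j k l * (eps k x * eps l y) = eps k x * ∑ l ∈ range 126, cZ j k l * eps l y := by
    rw [mul_sum]
    exact sum_congr rfl fun l _ => by ring
  rw [e]
  rcases bt_cases x (SG k) with ⟨hb, hb'⟩ | ⟨hb, hb'⟩ <;> rw [hb]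
  · show ((fld 32 (rw (tj j) k) y : ℕ) : ℤ) = _
    have he : eps k x = 1 := by unfold eps; rw [hb']; norm_num
    rw [he, hr]
    ring
  · show ((K2 k * 1 - fld 32 (rw (tj j) k) y : ℕ) : ℤ) = _
    have he : eps k x = -1 := by unfold eps; rw [hb']; norm_num
    rw [mul_one, Nat.cast_sub hle, hr, he]
    have h2 : (K2 k : ℤ) = 2 * Kc k := by
      have h1 := K2_even hk'
      have h3 := Kc_eq k
      have : K2 k = 2 * Kc k := by omega
      exact_mod_cast this
    rw [h2]
    ring

theorem qq_sym_c {j x y : ℕ} (hj : j < 6) (hx : x < 2 ^ 10) (hy : y < 2 ^ 10) : qq (tj j) x y = qq (tj j) y x := by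
  have h : (qq (tj j) x y : ℤ) = qq (tj j) y x := by
    rw [qqZ hj hy, qqZ hj hx]
    congr 1
    · congr 1
      rw [sum_comm]
      refine sum_congr rfl fun l hl => sum_congr rfl fun k hk => ?_
      have := (co_sp hj (mem_range.mp hk) (mem_range.mp hl)).1
      unfold cZ
      rw [this]
      ring
    · congr 1
      exact sum_congr rfl fun i _ => mul_comm _ _
  exact_mod_cast h

end

end Pool.Agent.H35.Z
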