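import Pool.Agent.H35.Z.Fin
import Pool.Agent.H35.Z.LowG

/-! The limits. -/

set_option autoImplicit false
open Finset Filter Topology

namespace Pool.Agent.H35.Z

theorem empty_ok (n : ℕ) : FourGraph (∅ : Finset (Finset (Fin n))) ∧ K5Free (∅ : Finset (Finset (Fin n))) := by
  refine ⟨fun e he => absurd he (notMem_empty e), ?_⟩
  rintro ⟨S, hS, hsub⟩
  have hne : (S.powersetCard 4).Nonempty := powersetCard_nonempty.mpr (by omega)
  obtain ⟨T, hT⟩ := hne
  exact notMem_empty T (hsub hT)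

theorem exSq_spec (n : ℕ) : ∃ H : Finset (Finset (Fin n)), FourGraph H ∧ K5Free H ∧ exSq n = sq H := by
  classical
  obtain ⟨H, hH, he⟩ := exists_mem_eq_sup ((univ : Finset (Finset (Finset (Fin n)))).filter
    fun H => FourGraph H ∧ K5Free H) ⟨∅, mem_filter.mpr ⟨mem_univ _, empty_ok n⟩⟩ (fun H => sq H)
  obtain ⟨-, h4, hK⟩ := mem_filter.mp hH
  refine ⟨H, h4, hK, ?_⟩
  rw [← he]
  rfl

theorem ex45_spec (n : ℕ) : ∃ H : Finset (Finset (Fin n)), FourGraph H ∧ K5Free H ∧ ex45 n = H.card := by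
  classical
  obtain ⟨H, hH, he⟩ := exists_mem_eq_sup ((univ : Finset (Finset (Finset (Fin n)))).filter
    fun H => FourGraph H ∧ K5Free H) ⟨∅, mem_filter.mpr ⟨mem_univ _, empty_ok n⟩⟩ card
  obtain ⟨-, h4, hK⟩ := mem_filter.mp hH
  refine ⟨H, h4, hK, ?_⟩
  rw [← he]
  rfl

theorem exSq_le (n : ℕ) : 384 * exSq n ≤ 31 * n ^ 5 := by
  obtain ⟨H, h4, hK, he⟩ := exSq_spec n
  have h := upper H h4 hK
  rwa [← he, Fintype.card_fin] at h

theorem ex45_le (n : ℕ) : 36864 * ex45 n ^ 2 ≤ 31 * n ^ 8 := by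
  obtain ⟨H, h4, hK, he⟩ := ex45_spec n
  have h := cs H h4 hK
  rwa [← he, Fintype.card_fin] at h

theorem lim_choose (r : ℕ) : Tendsto (fun n : ℕ => (n : ℝ) ^ r / (n.choose r : ℝ)) atTop (𝓝 (r.factorial : ℝ)) := by
  have h := isEquivalent_choose r
  have h2 := h.symm
  have h3 : Tendsto (fun n : ℕ => ((n : ℝ) ^ r / (Nat.factorial r : ℝ)) / (n.choose r : ℝ)) atTop (𝓝 1) := by
    rw [Asymptotics.isEquivalent_iff_tendsto_one] at h2
    · exact h2
    · filter_upwards [eventually_ge_atTop r] with n hn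
      have : 0 < n.choose r := Nat.choose_pos hn
      positivity
  have h4 := h3.const_mul (r.factorial : ℝ)
  rw [mul_one] at h4
  refine h4.congr fun n => ?_
  have : (r.factorial : ℝ) ≠ 0 := by exact_mod_cast r.factorial_ne_zero
  field_simp

theorem lim_one : Tendsto (fun n : ℕ => (n : ℝ) / ((n : ℝ) - 3)) atTop (𝓝 1) := by
  have h := tendsto_natCast_div_add_atTop (-3 : ℝ)
  exact h

theorem lim_ratio : Tendsto (fun n : ℕ => (n : ℝ) ^ 5 / ((n.choose 3 : ℝ) * ((n : ℝ) - 3) ^ 2)) atTop (𝓝 6) := by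
  have h1 := (lim_choose 3).mul (lim_one.pow 2)
  have e : ((Nat.factorial 3 : ℕ) : ℝ) * 1 ^ 2 = 6 := by norm_num [Nat.factorial]
  rw [e] at h1
  refine h1.congr fun n => ?_
  rw [div_pow, div_mul_div_comm]
  congr 1
  ring

/-- **the limit** -/
theorem limit5 : Tendsto (fun n : ℕ => (exSq n : ℝ) / (n : ℝ) ^ 5) atTop (𝓝 (31 / 384)) := by
  have hlow : Tendsto (fun n : ℕ => (31 / 384 * 120 : ℝ) * ((n : ℝ) ^ 5 / (n.choose 5 : ℝ))⁻¹) atTop (𝓝 (31 / 384)) := by
    have h1 := (lim_choose 5).inv₀ (by norm_num [Nat.factorial])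
    have h2 := h1.const_mul (31 / 384 * 120 : ℝ)
    have e : (31 / 384 * 120 : ℝ) * ((Nat.factorial 5 : ℕ) : ℝ)⁻¹ = 31 / 384 := by norm_num [Nat.factorial]
    rwa [e] at h2
  refine tendsto_of_tendsto_of_tendsto_of_le_of_le' hlow tendsto_const_nhds ?_ ?_
  · filter_upwards [eventually_ge_atTop 5] with n hn
    have hn0 : (0 : ℝ) < (n : ℝ) ^ 5 := by
      have : (0 : ℝ) < n := by exact_mod_cast (by omega : 0 < n)
      positivity
    rw [inv_div, le_div_iff₀ hn0, mul_assoc, div_mul_cancel₀ _ hn0.ne']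
    have h : ((31 * (120 * n.choose 5) : ℕ) : ℝ) ≤ ((384 * exSq n : ℕ) : ℝ) := by exact_mod_cast lower n
    push_cast at h
    linarith
  · filter_upwards [eventually_ge_atTop 5] with n hn
    have hn0 : (0 : ℝ) < (n : ℝ) ^ 5 := by
      have : (0 : ℝ) < n := by exact_mod_cast (by omega : 0 < n)
      positivity
    rw [div_le_iff₀ hn0]
    have h : ((384 * exSq n : ℕ) : ℝ) ≤ ((31 * n ^ 5 : ℕ) : ℝ) := by exact_mod_cast exSq_le n
    push_cast at h
    linarith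

/-- **the codegree squared density** -/
theorem density : Tendsto (fun n : ℕ => (exSq n : ℝ) / ((n.choose 3 : ℝ) * ((n : ℝ) - 3) ^ 2)) atTop (𝓝 (31 / 64)) := by
  have h := limit5.mul lim_ratio
  have e : (31 / 384 * 6 : ℝ) = 31 / 64 := by norm_num
  rw [e] at h
  refine h.congr' ?_
  filter_upwards [eventually_ge_atTop 5] with n hn
  have hn0 : (n : ℝ) ^ 5 ≠ 0 := by
    have : (0 : ℝ) < n := by exact_mod_cast (by omega : 0 < n)
    positivity
  rw [div_mul_div_comm, mul_comm ((n : ℝ) ^ 5), mul_div_mul_right _ _ hn0]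

/-- **the Turán density** -/
theorem turan_le (π : ℝ) (hπ : Tendsto (fun n : ℕ => (ex45 n : ℝ) / (n.choose 4 : ℝ)) atTop (𝓝 π)) :
    π ≤ Real.sqrt 31 / 8 := by
  have h1 := hπ.pow 2
  have h2 := ((lim_choose 4).pow 2).const_mul (31 / 36864 : ℝ)
  have e : (31 / 36864 : ℝ) * ((Nat.factorial 4 : ℕ) : ℝ) ^ 2 = 31 / 64 := by norm_num [Nat.factorial]
  rw [e] at h2
  have h3 : π ^ 2 ≤ 31 / 64 := by
    refine le_of_tendsto_of_tendsto h1 h2 ?_
    filter_upwards [eventually_ge_atTop 4] with n hn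
    have hpos : (0 : ℝ) < (n.choose 4 : ℝ) := by exact_mod_cast Nat.choose_pos hn
    have h : ((36864 * ex45 n ^ 2 : ℕ) : ℝ) ≤ ((31 * n ^ 8 : ℕ) : ℝ) := by exact_mod_cast ex45_le n
    push_cast at h
    rw [div_pow, div_pow, ← mul_div_assoc]
    refine div_le_div_of_nonneg_right ?_ (by positivity)
    have e2 : ((n : ℝ) ^ 4) ^ 2 = (n : ℝ) ^ 8 := by ring
    rw [e2]
    linarith
  rw [le_div_iff₀ (by norm_num)]
  refine Real.le_sqrt_of_sq_le ?_
  have e3 : (π * 8) ^ 2 = 64 * π ^ 2 := by ring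
  rw [e3]
  linarith

end Pool.Agent.H35.Z
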